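import Pool.Agent.H54.Fl.Count

/-!
The lower bound.
-/

namespace Pool.Agent.H54.Fl

open Set Filter Topology
open scoped ENNReal

theorem polygons {k : ℕ} (hk : 1 ≤ k) : ∃ v : ℕ → ℝ × ℝ, IsSimplePolygon (14 * k + 1) v ∧
    ∀ (S : Finset ℕ) (N : ℕ → ℝ × ℝ), IsLightSet (14 * k + 1) v S N →
      Illuminates (14 * k + 1) v S N → 9 * k ≤ S.card := by
  have e : 14 * k + 1 = 10 * k + (4 * k + 1) := by omega
  refine ⟨vk k, ?_, ?_⟩
  · rw [e]
    exact isSimple hk
  · intro S N hS hI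
    rw [e] at hS hI
    exact card_ge hk hS hI

theorem le_f {k : ℕ} (hk : 1 ≤ k) : ((9 * k : ℕ) : ℕ∞) ≤ f (14 * k + 1) := by
  obtain ⟨v, hv, h⟩ := polygons hk
  refine le_sInf fun m hm => ?_
  obtain ⟨S, N, hS, hI, hc⟩ := hm v hv
  exact le_trans (by exact_mod_cast h S N hS hI) hc

theorem le_limsup_f : (9 / 14 : ℝ≥0∞) ≤ limsup (fun n : ℕ => (f n : ℝ≥0∞) / n) atTop := by
  have h1 : Tendsto (fun k : ℕ => (9 * k : ℝ) / (14 * k + 1)) atTop (𝓝 (9 / 14)) := by
    have h2 : Tendsto (fun k : ℕ => (9 : ℝ) / (14 + 1 / (k : ℝ))) atTop (𝓝 (9 / (14 + 0))) :=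
      Tendsto.div tendsto_const_nhds (tendsto_const_nhds.add tendsto_one_div_atTop_nhds_zero_nat)
        (by norm_num)
    rw [add_zero] at h2
    refine h2.congr' ?_
    filter_upwards [eventually_gt_atTop 0] with k hk
    have : (0 : ℝ) < k := by exact_mod_cast hk
    field_simp
  have h3 := ENNReal.tendsto_ofReal h1
  have e : ENNReal.ofReal (9 / 14) = 9 / 14 := by
    rw [ENNReal.ofReal_div_of_pos (by norm_num)]
    norm_num
  rw [e] at h3
  refine le_of_forall_lt fun b hb => ?_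
  obtain ⟨b', hb1, hb2⟩ := exists_between hb
  refine hb1.trans_le ?_
  apply le_limsup_of_frequently_le
  · have hev := h3.eventually (lt_mem_nhds hb2)
    have h4 : Tendsto (fun k : ℕ => 14 * k + 1) atTop atTop :=
      tendsto_atTop_mono (fun k => by simp only [id]; omega) tendsto_id
    refine h4.frequently (Eventually.frequently ?_)
    filter_upwards [hev, eventually_ge_atTop 1] with k hk1 hk2
    refine hk1.le.trans ?_
    have h5 : ((9 * k : ℕ) : ℝ≥0∞) ≤ (f (14 * k + 1) : ℝ≥0∞) := by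
      have := ENat.toENNReal_le.2 (le_f hk2)
      simpa using this
    have h6 : ENNReal.ofReal ((9 * k : ℝ) / (14 * k + 1)) =
        ((9 * k : ℕ) : ℝ≥0∞) / ((14 * k + 1 : ℕ) : ℝ≥0∞) := by
      rw [ENNReal.ofReal_div_of_pos (by positivity)]
      congr 1
      · rw [show (9 * k : ℝ) = ((9 * k : ℕ) : ℝ) by push_cast; ring, ENNReal.ofReal_natCast]
      · rw [show (14 * k + 1 : ℝ) = ((14 * k + 1 : ℕ) : ℝ) by push_cast; ring,
          ENNReal.ofReal_natCast]
    rw [h6]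
    gcongr
  · isBoundedDefault

end Pool.Agent.H54.Fl
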