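import Mathlib

/-!
The combinatorial part: 13 clauses on 15 vertices need 9 lights.
-/

namespace Pool.Agent.H54.Fl

/-- one arm -/
theorem arm {n3 p3 n4 p4 l5 n6 p6 n7 p7 p8 : ℕ} (h7 : 1 ≤ n4 + l5 + p6) (h8 : 1 ≤ n4 + n6 + p7)
    (h4 : 1 ≤ n3 + p4 + p7) (h5 : 1 ≤ n3 + n7 + p8) (e3 : n3 + p3 ≤ 1) (e4 : n4 + p4 ≤ 1)
    (e6 : n6 + p6 ≤ 1) (e7 : n7 + p7 ≤ 1) :
    2 ≤ n3 + p3 + n4 + p4 + l5 + n6 + p6 + n7 + p7 ∧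
    (p3 = 1 → 3 ≤ n3 + p3 + n4 + p4 + l5 + n6 + p6 + n7 + p7) ∧
    (p3 = 1 → p8 = 0 → 5 ≤ n3 + p3 + n4 + p4 + l5 + n6 + p6 + n7 + p7) := by
  refine ⟨by omega, by omega, by omega⟩

theorem three_arms {x y z p q r : ℕ} (hx : 2 ≤ x) (hx1 : p = 1 → 3 ≤ x)
    (hx2 : p = 1 → q = 0 → 5 ≤ x) (hy : 2 ≤ y) (hy1 : q = 1 → 3 ≤ y)
    (hy2 : q = 1 → r = 0 → 5 ≤ y) (hz : 2 ≤ z) (hz1 : r = 1 → 3 ≤ z)
    (hz2 : r = 1 → p = 0 → 5 ≤ z) (h : 1 ≤ p + q + r) (hp : p ≤ 1) (hq : q ≤ 1) (hr : r ≤ 1) :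
    9 ≤ x + y + z := by
  omega

theorem comb {a b c : ℕ → ℕ} (Fa : ∀ r, a r ≤ c r) (Fb : ∀ r, b r ≤ c r)
    (Fab : ∀ r < 15, r ≠ 0 → r ≠ 5 → r ≠ 10 → a r + b r ≤ c r ∧ c r ≤ 1)
    (w0 : 1 ≤ a 14 + a 0 + b 1) (w1 : 1 ≤ a 14 + a 1 + b 2) (w2 : 1 ≤ a 13 + a 2 + b 3)
    (w3 : 1 ≤ a 13 + b 14 + b 2) (w4 : 1 ≤ a 3 + b 4 + b 7) (w5 : 1 ≤ a 3 + a 7 + b 8)
    (w6 : 1 ≤ b 3 + b 8 + b 13) (w7 : 1 ≤ a 4 + a 5 + b 6) (w8 : 1 ≤ a 4 + a 6 + b 7)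
    (w9 : 1 ≤ a 8 + b 9 + b 12) (w10 : 1 ≤ a 8 + a 12 + b 13) (w11 : 1 ≤ a 9 + b 10 + b 11)
    (w12 : 1 ≤ a 9 + a 11 + b 12) : 9 ≤ ∑ r ∈ Finset.range 15, c r := by
  have k1 := Fab 1 (by norm_num) (by norm_num) (by norm_num) (by norm_num)
  have k2 := Fab 2 (by norm_num) (by norm_num) (by norm_num) (by norm_num)
  have k3 := Fab 3 (by norm_num) (by norm_num) (by norm_num) (by norm_num)
  have k4 := Fab 4 (by norm_num) (by norm_num) (by norm_num) (by norm_num)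
  have k6 := Fab 6 (by norm_num) (by norm_num) (by norm_num) (by norm_num)
  have k7 := Fab 7 (by norm_num) (by norm_num) (by norm_num) (by norm_num)
  have k8 := Fab 8 (by norm_num) (by norm_num) (by norm_num) (by norm_num)
  have k9 := Fab 9 (by norm_num) (by norm_num) (by norm_num) (by norm_num)
  have k11 := Fab 11 (by norm_num) (by norm_num) (by norm_num) (by norm_num)
  have k12 := Fab 12 (by norm_num) (by norm_num) (by norm_num) (by norm_num)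
  have k13 := Fab 13 (by norm_num) (by norm_num) (by norm_num) (by norm_num)
  have k14 := Fab 14 (by norm_num) (by norm_num) (by norm_num) (by norm_num)
  have c0 := Fa 0
  have c5 := Fa 5
  have c10 := Fb 10
  have h7 : a 7 + b 7 ≤ 1 := k7.1.trans k7.2
  have h12 : a 12 + b 12 ≤ 1 := k12.1.trans k12.2
  have h2 : a 2 + b 2 ≤ 1 := k2.1.trans k2.2
  have h3 : a 3 + b 3 ≤ 1 := k3.1.trans k3.2
  have h4 : a 4 + b 4 ≤ 1 := k4.1.trans k4.2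
  have h6 : a 6 + b 6 ≤ 1 := k6.1.trans k6.2
  have h8 : a 8 + b 8 ≤ 1 := k8.1.trans k8.2
  have h9 : a 9 + b 9 ≤ 1 := k9.1.trans k9.2
  have h11 : a 11 + b 11 ≤ 1 := k11.1.trans k11.2
  have h13 : a 13 + b 13 ≤ 1 := k13.1.trans k13.2
  have h14 : a 14 + b 14 ≤ 1 := k14.1.trans k14.2
  have h1 : a 1 + b 1 ≤ 1 := k1.1.trans k1.2
  obtain ⟨A1, A2, A3⟩ := arm (p8 := b 8) w7 w8 w4 w5 h3 h4 h6 h7
  obtain ⟨B1, B2, B3⟩ := arm (p8 := b 13) w11 w12 w9 w10 h8 h9 h11 h12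
  obtain ⟨C1, C2, C3⟩ := arm (p8 := b 3) w0 w1 w3 w2 h13 h14 h1 h2
  have key := three_arms A1 A2 A3 B1 B2 B3 C1 C2 C3 w6 (by linarith) (by linarith) (by linarith)
  simp only [Finset.sum_range_succ, Finset.sum_range_zero, zero_add]
  linarith [k1.1, k2.1, k3.1, k4.1, k6.1, k7.1, k8.1, k9.1, k11.1, k12.1, k13.1, k14.1]

end Pool.Agent.H54.Fl
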