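import Pool.Agent.H54.Fl.Inward

/-!
One period of the polygon: 15 vertices, 13 witness points, and the finite checks.
-/

namespace Pool.Agent.H54.Fl

/-- vertices of one period: `V 0` left door, `V 1 … V 9` lower chain (`V 5` the convex vertex),
`V 10` right door, `V 11 … V 14` upper chain from right to left -/
def V : ℕ → ℤ × ℤ
  | 0 => (0, 0)
  | 1 => (114, -22)
  | 2 => (354, -83)
  | 3 => (1470, -922)
  | 4 => (1508, -1941)
  | 5 => (1509, -2814)
  | 6 => (1510, -2274)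
  | 7 => (1516, -1567)
  | 8 => (1629, 813)
  | 9 => (2317, 2199)
  | 10 => (2453, 2453)
  | 11 => (2372, 2305)
  | 12 => (2047, 1790)
  | 13 => (731, -36)
  | 14 => (238, -39)
  | _ => (0, 0)

/-- witness points -/
def W : ℕ → ℤ × ℤ
  | 0 => (89, -17)
  | 1 => (175, -36)
  | 2 => (388, -102)
  | 3 => (269, -40)
  | 4 => (1506, -1839)
  | 5 => (1525, -1337)
  | 6 => (1325, 80)
  | 7 => (1509, -2674)
  | 8 => (1511, -2120)
  | 9 => (2289, 2143)
  | 10 => (2017, 1747)
  | 11 => (2408, 2370)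
  | 12 => (2362, 2288)
  | _ => (0, 0)

/-- the three vertices which may illuminate the witness -/
def allow : ℕ → List ℕ
  | 0 => [0, 1, 14]
  | 1 => [1, 2, 14]
  | 2 => [2, 3, 13]
  | 3 => [2, 13, 14]
  | 4 => [3, 4, 7]
  | 5 => [3, 7, 8]
  | 6 => [3, 8, 13]
  | 7 => [4, 5, 6]
  | 8 => [4, 6, 7]
  | 9 => [8, 9, 12]
  | 10 => [8, 12, 13]
  | 11 => [9, 10, 11]
  | 12 => [9, 11, 12]
  | _ => []

/-- shift to the next period -/
def sh (p : ℤ × ℤ) : ℤ × ℤ := (p.1 + 2453, p.2 + 2 * p.1 + 2453)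

/-- shift to the previous period -/
def un (p : ℤ × ℤ) : ℤ × ℤ := (p.1 - 2453, p.2 - 2 * p.1 + 2453)

/-- twice the signed area -/
def oz (a b c : ℤ × ℤ) : ℤ := (b.1 - a.1) * (c.2 - a.2) - (b.2 - a.2) * (c.1 - a.1)

/-- the vertex `q` blocks the segment between `v` and `w` (`up`: `q` is on the upper chain) -/
def blk (v w q : ℤ × ℤ) (up : Bool) : Bool :=
  (decide (v.1 < w.1) && decide (v.1 ≤ q.1) && decide (q.1 ≤ w.1) &&
    (if up then decide (oz v w q < 0) else decide (0 < oz v w q))) ||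
  (decide (w.1 < v.1) && decide (w.1 ≤ q.1) && decide (q.1 ≤ v.1) &&
    (if up then decide (oz w v q < 0) else decide (0 < oz w v q)))

theorem chk_local : ∀ w < 13, ∀ r < 15, r ∈ allow w ∨
    ∃ s < 15, blk (V r) (W w) (V s) (decide (10 < s)) = true := by
  decide +kernel

theorem chk_tb1 : ∀ w < 13, ∃ s < 15, 0 < s ∧
    blk (sh (V 1)) (W w) (V s) (decide (10 < s)) = true := by
  decide +kernel

/-- upper vertices seen to the left: `un (V 11)` and the upper vertices of the period -/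
def Bl (s : ℕ) : ℤ × ℤ := if s = 10 then un (V 11) else V s

/-- upper vertices seen to the right: `sh (V 14)` and the upper vertices of the period -/
def Br (s : ℕ) : ℤ × ℤ := if s = 10 then sh (V 14) else V s

theorem chk_left : ∀ w < 13, ∃ i < 11, (V i).1 < (W w).1 ∧ ∃ s < 15, 10 ≤ s ∧
    (Bl s).1 < (W w).1 ∧ oz (V i) (W w) (Bl s) < 0 := by
  decide +kernel

theorem chk_right : ∀ w < 13, ∃ i < 11, (W w).1 < (V i).1 ∧ ∃ s < 15, 10 ≤ s ∧
    (W w).1 < (Br s).1 ∧ oz (W w) (V i) (Br s) < 0 := by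
  decide +kernel

theorem chk_lox : ∀ r < 10, (V r).1 < (V (r + 1)).1 := by decide

theorem chk_hix : ∀ r < 15, 11 < r → (V r).1 < (V (r - 1)).1 := by decide

theorem chk_lo_orient : ∀ r < 9, r ≠ 4 → oz (V r) (V (r + 1)) (V (r + 2)) < 0 := by decide

theorem chk_lo_orient4 : 0 < oz (V 4) (V 5) (V 6) := by decide

theorem chk_door_orient : oz (V 9) (V 10) (sh (V 1)) < 0 := by decide

theorem chk_hi_orient : ∀ r < 15, 12 < r → 0 < oz (V r) (V (r - 1)) (V (r - 2)) := by decide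

theorem chk_hi_orient_l : 0 < oz (un (V 11)) (V 14) (V 13) := by decide
theorem chk_hi_orient_l0 : 0 < oz (V 0) (V 14) (V 13) := by decide
theorem chk_hi_orient_r : 0 < oz (V 12) (V 11) (sh (V 14)) := by decide
theorem chk_hi_orient_r0 : 0 < oz (V 12) (V 11) (V 10) := by decide

/-- the witnesses lie above the lower chain -/
theorem chk_w_lo : ∀ w < 13, ∃ r < 10, (V r).1 ≤ (W w).1 ∧ (W w).1 ≤ (V (r + 1)).1 ∧
    0 ≤ oz (V r) (V (r + 1)) (W w) := by
  decide +kernel

/-- the witnesses lie below the upper chain -/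
theorem chk_w_hi : ∀ w < 13, (∃ r < 15, 11 < r ∧ (V r).1 ≤ (W w).1 ∧ (W w).1 ≤ (V (r - 1)).1 ∧
      oz (V r) (V (r - 1)) (W w) ≤ 0) ∨
    (0 ≤ (W w).1 ∧ (W w).1 ≤ (V 14).1 ∧ oz (V 0) (V 14) (W w) ≤ 0 ∧
      oz (un (V 11)) (V 14) (W w) ≤ 0) ∨
    ((V 11).1 ≤ (W w).1 ∧ (W w).1 ≤ 2453 ∧ oz (V 11) (V 10) (W w) ≤ 0 ∧
      oz (V 11) (sh (V 14)) (W w) ≤ 0) := by
  decide +kernel

/-- the lower edge `a a'` is strictly below the upper edge `b b'` at the left end of the overlap -/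
def okl (a a' b b' : ℤ × ℤ) : Bool :=
  (decide (b.1 ≤ a.1) && decide (oz b b' a < 0)) || (decide (a.1 ≤ b.1) && decide (0 < oz a a' b))

/-- the lower edge `a a'` is strictly below the upper edge `b b'` at the right end of the
overlap -/
def okr (a a' b b' : ℤ × ℤ) : Bool :=
  (decide (a'.1 ≤ b'.1) && decide (oz b b' a' < 0)) ||
    (decide (b'.1 ≤ a'.1) && decide (0 < oz a a' b'))

/-- the edges do not overlap, or the first one is strictly below the second one -/
def okp (a a' b b' : ℤ × ℤ) : Bool :=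
  decide (a'.1 < b.1) || decide (b'.1 < a.1) || (okl a a' b b' && okr a a' b b')

theorem chk_pair : ∀ r < 10, ∀ s < 15, 11 < s →
    okp (V r) (V (r + 1)) (V s) (V (s - 1)) = true := by
  decide +kernel

theorem chk_pair_l : ∀ r < 10, okp (V r) (V (r + 1)) (un (V 11)) (V 14) = true := by
  decide +kernel

theorem chk_pair_r : ∀ r < 10, okp (V r) (V (r + 1)) (V 11) (sh (V 14)) = true := by
  decide +kernel

theorem chk_pair_l0 : ∀ r < 10, 0 < r → okp (V r) (V (r + 1)) (V 0) (V 14) = true := by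
  decide +kernel

theorem chk_pair_l00 : (V 0).1 < (V 1).1 ∧ (V 1).1 < (V 14).1 ∧ oz (V 0) (V 14) (V 1) < 0 := by
  decide

theorem chk_pair_r0 : ∀ r < 9, okp (V r) (V (r + 1)) (V 11) (V 10) = true := by
  decide +kernel

theorem chk_pair_r00 : (V 9).1 < (V 11).1 ∧ (V 11).1 < (V 10).1 ∧
    0 < oz (V 9) (V 10) (V 11) := by
  decide

/-- indices of the witnesses which the vertex `r` illuminates in position `N` (aligned to the
next edge) -/
def Nl : ℕ → List ℕ
  | 0 => [0]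
  | 1 => [1]
  | 2 => [2]
  | 3 => [4, 5]
  | 4 => [7, 8]
  | 5 => [7]
  | 6 => [8]
  | 7 => [5]
  | 8 => [9, 10]
  | 9 => [11, 12]
  | 11 => [12]
  | 12 => [10]
  | 13 => [2, 3]
  | 14 => [0, 1]
  | _ => []

/-- indices of the witnesses which the vertex `r` illuminates in position `P` (aligned to the
previous edge) -/
def Pl : ℕ → List ℕ
  | 1 => [0]
  | 2 => [1, 3]
  | 3 => [2, 6]
  | 4 => [4]
  | 6 => [7]
  | 7 => [4, 8]
  | 8 => [5, 6]
  | 9 => [9]
  | 10 => [11]
  | 11 => [11]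
  | 12 => [9, 12]
  | 13 => [6, 10]
  | 14 => [3]
  | _ => []

theorem chk_allow : ∀ w < 13, ∀ r < 15, r ∈ allow w → w ∈ Nl r ∨ w ∈ Pl r := by
  decide +kernel

/-- a neighbour of the vertex `r` -/
def nb (r : ℕ) : ℕ := if r = 14 then 13 else r + 1

/-- the two positions exclude each other -/
def excl (v wN wP u : ℤ × ℤ) : Bool :=
  decide (oz v wN wP < 0) && decide (0 < oz v wP u) && decide (0 < oz v u wN)

theorem chk_excl : ∀ r < 15, r ≠ 0 → r ≠ 5 → r ≠ 10 → ∀ a ∈ Nl r, ∀ b ∈ Pl r,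
    excl (V r) (W a) (W b) (V (nb r)) = true := by
  decide +kernel

theorem chk_door : excl (V 10) (sh (W 0)) (W 11) (V 9) = true := by decide

end Pool.Agent.H54.Fl
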