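import Pool.Agent.H54.Fl.Comb
import Pool.Agent.H54.Fl.Data

/-!
The 13 clauses.
-/

namespace Pool.Agent.H54.Fl

theorem clauses {a b c : ℕ → ℕ} (Fw : ∀ w < 13, ∃ r, r ∈ allow w ∧
    ((w ∈ Nl r ∧ a r = 1) ∨ (w ∈ Pl r ∧ b r = 1))) (Fa : ∀ r, a r ≤ c r) (Fb : ∀ r, b r ≤ c r)
    (Fab : ∀ r < 15, r ≠ 0 → r ≠ 5 → r ≠ 10 → a r + b r ≤ c r ∧ c r ≤ 1) :
    9 ≤ ∑ r ∈ Finset.range 15, c r := by
  have G : ∀ w < 13, ∀ r1 r2 r3 : ℕ, ∀ x1 x2 x3 : ℕ, allow w = [r1, r2, r3] →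
      ((w ∈ Nl r1 → a r1 ≤ x1) ∧ (w ∈ Pl r1 → b r1 ≤ x1)) →
      ((w ∈ Nl r2 → a r2 ≤ x2) ∧ (w ∈ Pl r2 → b r2 ≤ x2)) →
      ((w ∈ Nl r3 → a r3 ≤ x3) ∧ (w ∈ Pl r3 → b r3 ≤ x3)) → 1 ≤ x1 + x2 + x3 := by
    intro w hw r1 r2 r3 x1 x2 x3 hall g1 g2 g3
    obtain ⟨r, hr, h⟩ := Fw w hw
    rw [hall] at hr
    simp only [List.mem_cons, List.not_mem_nil, or_false] at hr
    rcases hr with rfl | rfl | rfl
    · rcases h with ⟨h1, h2⟩ | ⟨h1, h2⟩
      · have := g1.1 h1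
        omega
      · have := g1.2 h1
        omega
    · rcases h with ⟨h1, h2⟩ | ⟨h1, h2⟩
      · have := g2.1 h1
        omega
      · have := g2.2 h1
        omega
    · rcases h with ⟨h1, h2⟩ | ⟨h1, h2⟩
      · have := g3.1 h1
        omega
      · have := g3.2 h1
        omega
  have w0 := G 0 (by norm_num) 0 1 14 (a 0) (b 1) (a 14) rfl
    ⟨fun _ => le_rfl, fun h => absurd h (by decide)⟩ ⟨fun h => absurd h (by decide), fun _ => le_rfl⟩
    ⟨fun _ => le_rfl, fun h => absurd h (by decide)⟩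
  have w1 := G 1 (by norm_num) 1 2 14 (a 1) (b 2) (a 14) rfl
    ⟨fun _ => le_rfl, fun h => absurd h (by decide)⟩ ⟨fun h => absurd h (by decide), fun _ => le_rfl⟩
    ⟨fun _ => le_rfl, fun h => absurd h (by decide)⟩
  have w2 := G 2 (by norm_num) 2 3 13 (a 2) (b 3) (a 13) rfl
    ⟨fun _ => le_rfl, fun h => absurd h (by decide)⟩ ⟨fun h => absurd h (by decide), fun _ => le_rfl⟩
    ⟨fun _ => le_rfl, fun h => absurd h (by decide)⟩
  have w3 := G 3 (by norm_num) 2 13 14 (b 2) (a 13) (b 14) rfl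
    ⟨fun h => absurd h (by decide), fun _ => le_rfl⟩ ⟨fun _ => le_rfl, fun h => absurd h (by decide)⟩
    ⟨fun h => absurd h (by decide), fun _ => le_rfl⟩
  have w4 := G 4 (by norm_num) 3 4 7 (a 3) (b 4) (b 7) rfl
    ⟨fun _ => le_rfl, fun h => absurd h (by decide)⟩ ⟨fun h => absurd h (by decide), fun _ => le_rfl⟩
    ⟨fun h => absurd h (by decide), fun _ => le_rfl⟩
  have w5 := G 5 (by norm_num) 3 7 8 (a 3) (a 7) (b 8) rfl
    ⟨fun _ => le_rfl, fun h => absurd h (by decide)⟩ ⟨fun _ => le_rfl, fun h => absurd h (by decide)⟩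
    ⟨fun h => absurd h (by decide), fun _ => le_rfl⟩
  have w6 := G 6 (by norm_num) 3 8 13 (b 3) (b 8) (b 13) rfl
    ⟨fun h => absurd h (by decide), fun _ => le_rfl⟩ ⟨fun h => absurd h (by decide), fun _ => le_rfl⟩
    ⟨fun h => absurd h (by decide), fun _ => le_rfl⟩
  have w7 := G 7 (by norm_num) 4 5 6 (a 4) (a 5) (b 6) rfl
    ⟨fun _ => le_rfl, fun h => absurd h (by decide)⟩ ⟨fun _ => le_rfl, fun h => absurd h (by decide)⟩
    ⟨fun h => absurd h (by decide), fun _ => le_rfl⟩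
  have w8 := G 8 (by norm_num) 4 6 7 (a 4) (a 6) (b 7) rfl
    ⟨fun _ => le_rfl, fun h => absurd h (by decide)⟩ ⟨fun _ => le_rfl, fun h => absurd h (by decide)⟩
    ⟨fun h => absurd h (by decide), fun _ => le_rfl⟩
  have w9 := G 9 (by norm_num) 8 9 12 (a 8) (b 9) (b 12) rfl
    ⟨fun _ => le_rfl, fun h => absurd h (by decide)⟩ ⟨fun h => absurd h (by decide), fun _ => le_rfl⟩
    ⟨fun h => absurd h (by decide), fun _ => le_rfl⟩
  have w10 := G 10 (by norm_num) 8 12 13 (a 8) (a 12) (b 13) rfl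
    ⟨fun _ => le_rfl, fun h => absurd h (by decide)⟩ ⟨fun _ => le_rfl, fun h => absurd h (by decide)⟩
    ⟨fun h => absurd h (by decide), fun _ => le_rfl⟩
  have w11 := G 11 (by norm_num) 9 10 11 (a 9) (b 10) (b 11) rfl
    ⟨fun _ => le_rfl, fun h => absurd h (by decide)⟩ ⟨fun h => absurd h (by decide), fun _ => le_rfl⟩
    ⟨fun h => absurd h (by decide), fun _ => le_rfl⟩
  have w12 := G 12 (by norm_num) 9 11 12 (a 9) (a 11) (b 12) rfl
    ⟨fun _ => le_rfl, fun h => absurd h (by decide)⟩ ⟨fun _ => le_rfl, fun h => absurd h (by decide)⟩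
    ⟨fun h => absurd h (by decide), fun _ => le_rfl⟩
  exact comb Fa Fb Fab (by linarith) (by linarith) (by linarith) (by linarith) (by linarith)
    (by linarith) (by linarith) (by linarith) (by linarith) (by linarith) (by linarith)
    (by linarith) (by linarith)

end Pool.Agent.H54.Fl
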