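import Pool.Agent.H54.Fl.Vis2
import Pool.Agent.H54.Fl.Comb2

/-!
The two positions of a floodlight exclude each other; counting.
-/

namespace Pool.Agent.H54.Fl

open Set

theorem excl_contra {v u wN wP N : ℝ × ℝ} (hN : N ≠ 0) (h1 : orient v wN wP < 0)
    (h2 : 0 < orient v wP u) (h3 : 0 < orient v u wN)
    (hu : N.1 * (u.1 - v.1) + N.2 * (u.2 - v.2) ≤ 0) (ha : wN ∈ halfPlane v N)
    (hb : wP ∈ halfPlane v N) : False := by
  have ha' : 0 ≤ N.1 * (wN.1 - v.1) + N.2 * (wN.2 - v.2) := ha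
  have hb' : 0 ≤ N.1 * (wP.1 - v.1) + N.2 * (wP.2 - v.2) := hb
  have e : orient v wN wP * (N.1 * (u.1 - v.1) + N.2 * (u.2 - v.2)) =
      -(orient v wP u * (N.1 * (wN.1 - v.1) + N.2 * (wN.2 - v.2))) -
        orient v u wN * (N.1 * (wP.1 - v.1) + N.2 * (wP.2 - v.2)) := by
    unfold orient
    ring
  have c1 : 0 ≤ orient v wN wP * (N.1 * (u.1 - v.1) + N.2 * (u.2 - v.2)) :=
    mul_nonneg_of_nonpos_of_nonpos h1.le hu
  have c2 : 0 ≤ orient v wP u * (N.1 * (wN.1 - v.1) + N.2 * (wN.2 - v.2)) :=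
    mul_nonneg h2.le ha'
  have c3 : 0 ≤ orient v u wN * (N.1 * (wP.1 - v.1) + N.2 * (wP.2 - v.2)) :=
    mul_nonneg h3.le hb'
  have d1 : N.1 * (wN.1 - v.1) + N.2 * (wN.2 - v.2) = 0 :=
    (mul_eq_zero.1 (by linarith : orient v wP u * (N.1 * (wN.1 - v.1) +
      N.2 * (wN.2 - v.2)) = 0)).resolve_left h2.ne'
  have d2 : N.1 * (wP.1 - v.1) + N.2 * (wP.2 - v.2) = 0 :=
    (mul_eq_zero.1 (by linarith : orient v u wN * (N.1 * (wP.1 - v.1) +
      N.2 * (wP.2 - v.2)) = 0)).resolve_left h3.ne'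
  have f1 : N.1 * orient v wN wP = 0 := by
    have : N.1 * orient v wN wP = (N.1 * (wN.1 - v.1) + N.2 * (wN.2 - v.2)) * (wP.2 - v.2) -
        (N.1 * (wP.1 - v.1) + N.2 * (wP.2 - v.2)) * (wN.2 - v.2) := by
      unfold orient
      ring
    rw [this, d1, d2]
    ring
  have f2 : N.2 * orient v wN wP = 0 := by
    have : N.2 * orient v wN wP = (N.1 * (wP.1 - v.1) + N.2 * (wP.2 - v.2)) * (wN.1 - v.1) -
        (N.1 * (wN.1 - v.1) + N.2 * (wN.2 - v.2)) * (wP.1 - v.1) := by
      unfold orient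
      ring
    rw [this, d1, d2]
    ring
  exact hN (Prod.ext ((mul_eq_zero.1 f1).resolve_right h1.ne)
    ((mul_eq_zero.1 f2).resolve_right h1.ne))

theorem excl_T {j : ℕ} {v u wN wP : ℤ × ℤ} {N : ℝ × ℝ} (hN : N ≠ 0)
    (h : excl v wN wP u = true)
    (hu : N.1 * ((T j u).1 - (T j v).1) + N.2 * ((T j u).2 - (T j v).2) ≤ 0)
    (ha : T j wN ∈ halfPlane (T j v) N) (hb : T j wP ∈ halfPlane (T j v) N) : False := by
  unfold excl at h
  simp only [Bool.and_eq_true, decide_eq_true_eq] at h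
  obtain ⟨⟨h1, h2⟩, h3⟩ := h
  refine excl_contra hN ?_ ?_ ?_ hu ha hb
  · rw [orient_T]
    exact_mod_cast h1
  · rw [orient_T]
    exact_mod_cast h2
  · rw [orient_T]
    exact_mod_cast h3

theorem cast_pos {a b c : ℤ × ℤ} {j : ℕ} (h : 0 < oz a b c) :
    0 < orient (T j a) (T j b) (T j c) := by
  rw [orient_T]
  exact_mod_cast h

theorem cast_neg {a b c : ℤ × ℤ} {j : ℕ} (h : oz a b c < 0) :
    orient (T j a) (T j b) (T j c) < 0 := by
  rw [orient_T]
  exact_mod_cast h

section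

variable {k j : ℕ} (hk : 1 ≤ k) (hj : j < k)

include hk hj

theorem inward_nb {r : ℕ} (hr : r < 15) (h0 : r ≠ 0) (h5 : r ≠ 5) (h10 : r ≠ 10) {N : ℝ × ℝ}
    (hN : N ≠ 0) (hin : InwardFacing (reg k) (T j (V r)) (halfPlane (T j (V r)) N)) :
    N.1 * ((T j (V (nb r))).1 - (T j (V r)).1) + N.2 * ((T j (V (nb r))).2 - (T j (V r)).2) ≤ 0 := by
  rcases Nat.lt_or_ge r 11 with h | h
  · obtain ⟨s, rfl⟩ : ∃ s, r = s + 1 := ⟨r - 1, by omega⟩
    have e0 : lo (10 * j + s) = T j (V s) := lo_eq j (by omega)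
    have e1 : lo (10 * j + s + 1) = T j (V (s + 1)) := by
      rw [add_assoc]
      exact lo_eq j (by omega)
    have e2 : lo (10 * j + s + 2) = T j (V (s + 2)) := by
      rw [add_assoc]
      exact lo_eq j (by omega)
    have hn : nb (s + 1) = s + 2 := by
      unfold nb
      rw [if_neg (by omega)]
    rw [hn]
    have := ((mono hk).inward_lo (i := 10 * j + s) (by omega) (by
      rw [e0, e1, e2]
      exact cast_neg (chk_lo_orient s (by omega) (by omega))) hN (by
      rw [e1]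
      exact hin)).1
    rwa [e1, e2] at this
  · rcases Nat.lt_or_ge r 14 with h' | h'
    · have e0 : hi k (4 * j + (14 - r)) = T j (V (r + 1)) := by
        have := hi_eq (r := r + 1) hj (by omega) (by omega)
        rwa [show 15 - (r + 1) = 14 - r by omega] at this
      have e1 : hi k (4 * j + (14 - r) + 1) = T j (V r) := by
        rw [show 4 * j + (14 - r) + 1 = 4 * j + (15 - r) by omega]
        exact hi_eq hj h (by omega)
      have hn : nb r = r + 1 := by
        unfold nb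
        rw [if_neg (by omega)]
      rw [hn]
      have := ((mono hk).inward_hi (i := 4 * j + (14 - r)) (by omega) (by
        rw [e0, e1]
        rcases Nat.lt_or_ge 11 r with h2 | h2
        · rw [show 4 * j + (14 - r) + 2 = 4 * j + (15 - (r - 1)) by omega,
            hi_eq hj (by omega) (by omega)]
          exact cast_pos (chk_hi_orient (r + 1) (by omega) (by omega))
        · obtain rfl : r = 11 := by omega
          rcases Nat.lt_or_ge (j + 1) k with h3 | h3
          · rw [show 4 * j + (14 - 11) + 2 = 4 * (j + 1) + (15 - 14) by omega,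
              hi_eq h3 (by norm_num) (by norm_num), T_succ]
            exact cast_pos chk_hi_orient_r
          · obtain rfl : k = j + 1 := by omega
            rw [show 4 * j + (14 - 11) + 2 = 4 * (j + 1) + 1 by omega, hi_last, ← V10_eq]
            exact cast_pos chk_hi_orient_r0) hN (by
        rw [e1]
        exact hin)).2
      rwa [e0, e1] at this
    · obtain rfl : r = 14 := by omega
      have hn : nb 14 = 13 := rfl
      rw [hn]
      have e1 : hi k (4 * j + 1) = T j (V 14) :=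
        hi_eq (r := 14) hj (by norm_num) (by norm_num)
      have e2 : hi k (4 * j + 2) = T j (V 13) :=
        hi_eq (r := 13) hj (by norm_num) (by norm_num)
      have := ((mono hk).inward_hi (i := 4 * j) (by omega) (by
        rw [e1, e2]
        rcases Nat.eq_zero_or_pos j with h2 | h2
        · subst h2
          rw [mul_zero, hi_zero]
          exact cast_pos chk_hi_orient_l0
        · obtain ⟨i, rfl⟩ : ∃ i, j = i + 1 := ⟨j - 1, by omega⟩
          rw [show 4 * (i + 1) = 4 * i + (15 - 11) by omega,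
            hi_eq (by omega) (by norm_num) (by norm_num), ← T_un i (V 11)]
          exact cast_pos chk_hi_orient_l) hN (by
        rw [e1]
        exact hin)).1
      rwa [e1, e2] at this

omit hj in
theorem inward_door (hj1 : j + 1 < k) {N : ℝ × ℝ}
    (hN : N ≠ 0) (hin : InwardFacing (reg k) (T j (V 10)) (halfPlane (T j (V 10)) N)) :
    N.1 * ((T j (V 9)).1 - (T j (V 10)).1) + N.2 * ((T j (V 9)).2 - (T j (V 10)).2) ≤ 0 := by
  have e0 : lo (10 * j + 9) = T j (V 9) := lo_eq j (by norm_num)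
  have e1 : lo (10 * j + 9 + 1) = T j (V 10) := lo_eq (r := 10) j (by norm_num)
  have e2 : lo (10 * j + 9 + 2) = T j (sh (V 1)) := by
    rw [show 10 * j + 9 + 2 = 10 * (j + 1) + 1 by ring, lo_eq (j + 1) (by norm_num), T_succ]
  have := ((mono hk).inward_lo (i := 10 * j + 9) (by omega) (by
    rw [e0, e1, e2]
    exact cast_neg chk_door_orient) hN (by
    rw [e1]
    exact hin)).2
  rwa [e0, e1] at this

end

section

variable {k : ℕ} (hk : 1 ≤ k) {S : Finset ℕ} {N : ℕ → ℝ × ℝ}

/-- the light at `v i` illuminates the `w`-th witness of the `j`-th period -/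
def LitW (k : ℕ) (N : ℕ → ℝ × ℝ) (j i w : ℕ) : Prop :=
  Lit (reg k) (vk k i) (N i) (T j (W w))

/-- the light at `v i` illuminates a witness of the `j`-th period -/
def LitA (k : ℕ) (N : ℕ → ℝ × ℝ) (j i : ℕ) : Prop := ∃ w < 13, LitW k N j i w

open Classical in
/-- the lights which illuminate a witness of the `j`-th period -/
noncomputable def lights (k : ℕ) (S : Finset ℕ) (N : ℕ → ℝ × ℝ) (j : ℕ) : Finset ℕ :=
  S.filter fun i => LitA k N j i

include hk

theorem card_lights {j : ℕ} (hj : j < k) (hS : IsLightSet (10 * k + (4 * k + 1)) (vk k) S N)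
    (hI : Illuminates (10 * k + (4 * k + 1)) (vk k) S N) : 9 ≤ (lights k S N j).card := by
  classical
  -- `Q r w`
  let Q : ℕ → ℕ → Prop := fun r w => idx k j r ∈ S ∧ LitW k N j (idx k j r) w
  let Nn : ℕ → Prop := fun r => ∃ w ∈ Nl r, w < 13 ∧ Q r w
  let Pp : ℕ → Prop := fun r => ∃ w ∈ Pl r, w < 13 ∧ Q r w
  have F1 : ∀ w < 13, ∃ r < 15, r ∈ allow w ∧ Q r w := by
    intro w hw
    obtain ⟨i, hi1, hi2⟩ := hI _ (wit_mem hk hj hw)
    obtain ⟨r, hr1, hr2, rfl⟩ := vis_allow hk hj (hS i hi1).1 hw hi2.2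
    exact ⟨r, hr1, hr2, hi1, hi2⟩
  have F2 : ∀ r < 15, r ≠ 0 → r ≠ 5 → r ≠ 10 → ¬ (Nn r ∧ Pp r) := by
    rintro r hr h0 h5 h10 ⟨⟨a, ha, -, ha2, ha3⟩, ⟨b, hb, -, -, hb3⟩⟩
    obtain ⟨-, hN, hin⟩ := hS _ ha2
    have e := vk_idx hj hr
    rw [e] at hin
    have h1 := ha3.1
    have h2 := hb3.1
    rw [e] at h1 h2
    exact excl_T hN (chk_excl r hr h0 h5 h10 a ha b hb) (inward_nb hk hj hr h0 h5 h10 hN hin) h1 h2
  have tot : 9 ≤ ∑ r ∈ Finset.range 15, (if Nn r ∨ Pp r then 1 else 0) := by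
    refine clauses (a := fun r => if Nn r then 1 else 0) (b := fun r => if Pp r then 1 else 0)
      (c := fun r => if Nn r ∨ Pp r then 1 else 0) ?_ ?_ ?_ ?_
    · intro w hw
      obtain ⟨r, hr1, hr2, hr3⟩ := F1 w hw
      refine ⟨r, hr2, ?_⟩
      rcases chk_allow w hw r hr1 hr2 with h | h
      · exact Or.inl ⟨h, if_pos ⟨w, h, hw, hr3⟩⟩
      · exact Or.inr ⟨h, if_pos ⟨w, h, hw, hr3⟩⟩
    · intro r
      by_cases h1 : Nn r
      · simp only [if_pos h1, if_pos (Or.inl h1 : Nn r ∨ Pp r), le_refl]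
      · simp only [if_neg h1, Nat.zero_le]
    · intro r
      by_cases h1 : Pp r
      · simp only [if_pos h1, if_pos (Or.inr h1 : Nn r ∨ Pp r), le_refl]
      · simp only [if_neg h1, Nat.zero_le]
    · intro r hr h0 h5 h10
      have h2 := F2 r hr h0 h5 h10
      by_cases h1 : Nn r
      · have h3 : ¬ Pp r := fun h => h2 ⟨h1, h⟩
        simp only [if_pos h1, if_neg h3, if_pos (Or.inl h1 : Nn r ∨ Pp r)]
        exact ⟨le_rfl, le_rfl⟩
      · by_cases h3 : Pp r
        · simp only [if_neg h1, if_pos h3, if_pos (Or.inr h3 : Nn r ∨ Pp r)]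
          exact ⟨le_rfl, le_rfl⟩
        · have h4 : ¬ (Nn r ∨ Pp r) := fun h => h.elim h1 h3
          simp only [if_neg h1, if_neg h3, if_neg h4]
          exact ⟨le_rfl, Nat.zero_le _⟩
  -- the lights
  rw [← Finset.card_filter] at tot
  refine tot.trans (Finset.card_le_card_of_injOn (idx k j) ?_ ?_)
  · intro r hr
    rw [Finset.mem_coe, Finset.mem_filter, Finset.mem_range] at hr
    rw [Finset.mem_coe]
    unfold lights
    rw [Finset.mem_filter]
    rcases hr.2 with ⟨w, -, hw, h1, h2⟩ | ⟨w, -, hw, h1, h2⟩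
    · exact ⟨h1, w, hw, h2⟩
    · exact ⟨h1, w, hw, h2⟩
  · intro r hr r' hr' heq
    rw [Finset.mem_coe, Finset.mem_filter, Finset.mem_range] at hr hr'
    have h1 := hr.1
    have h2 := hr'.1
    unfold idx at heq
    split_ifs at heq <;> omega

theorem disjoint_lights {j j' : ℕ} (hjj : j < j') (hj' : j' < k)
    (hS : IsLightSet (10 * k + (4 * k + 1)) (vk k) S N) :
    Disjoint (lights k S N j) (lights k S N j') := by
  classical
  have hj : j < k := by omega
  rw [Finset.disjoint_left]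
  intro i h1 h2
  unfold lights at h1 h2
  rw [Finset.mem_filter] at h1 h2
  obtain ⟨hiS, w, hw, hl⟩ := h1
  obtain ⟨-, w', hw', hl'⟩ := h2
  obtain ⟨hin, hN, hinw⟩ := hS i hiS
  obtain ⟨r, hr1, hr2, hr3⟩ := vis_allow hk hj hin hw hl.2
  obtain ⟨r', hr1', hr2', hr3'⟩ := vis_allow hk hj' hin hw' hl'.2
  have hpos : j' = j + 1 ∧ r = 10 ∧ r' = 0 := by
    rw [hr3] at hr3'
    unfold idx at hr3'
    split_ifs at hr3' <;> omega
  obtain ⟨rfl, rfl, rfl⟩ := hpos
  have c1 : ∀ w < 13, 10 ∈ allow w → w = 11 := by decide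
  have c2 : ∀ w < 13, 0 ∈ allow w → w = 0 := by decide
  obtain rfl := c1 w hw hr2
  obtain rfl := c2 w' hw' hr2'
  have e := vk_idx hj (r := 10) (by norm_num)
  rw [← hr3] at e
  have g1 := hl.1
  have g2 := hl'.1
  rw [e] at g1 g2 hinw
  rw [T_succ] at g2
  exact excl_T hN chk_door (inward_door hk hj' hN hinw) g2 g1

theorem card_ge (hS : IsLightSet (10 * k + (4 * k + 1)) (vk k) S N)
    (hI : Illuminates (10 * k + (4 * k + 1)) (vk k) S N) : 9 * k ≤ S.card := by
  classical
  have h1 : ((Finset.range k).biUnion (lights k S N)).card =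
      ∑ j ∈ Finset.range k, (lights k S N j).card := by
    apply Finset.card_biUnion
    intro j hj j' hj' hne
    rw [Finset.mem_coe, Finset.mem_range] at hj hj'
    rcases Nat.lt_or_gt_of_ne hne with h | h
    · exact disjoint_lights hk h hj' hS
    · exact (disjoint_lights hk h hj hS).symm
  have h2 : (Finset.range k).biUnion (lights k S N) ⊆ S := by
    rw [Finset.biUnion_subset]
    intro j _
    exact Finset.filter_subset _ _
  have h3 : ∑ j ∈ Finset.range k, 9 ≤ ∑ j ∈ Finset.range k, (lights k S N j).card :=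
    Finset.sum_le_sum fun j hj => card_lights hk (Finset.mem_range.1 hj) hS hI
  rw [Finset.sum_const, Finset.card_range, smul_eq_mul] at h3
  have h4 := Finset.card_le_card h2
  omega

end

end Pool.Agent.H54.Fl
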