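import Mathlib

/-!
Simple polygons in the plane, the region enclosed by a simple polygon, inward-facing
`π`-floodlights at the vertices.  (Problem MP_8a5d4f_co.)
-/

namespace Pool.Agent.H54.Fl

open Set Filter Topology

/-- twice the signed area of the triangle `a b c` -/
def orient (a b c : ℝ × ℝ) : ℝ :=
  (b.1 - a.1) * (c.2 - a.2) - (b.2 - a.2) * (c.1 - a.1)

/-- the `i`-th edge of the closed polygonal curve with the vertices `v 0, …, v (n - 1)` -/
def edge (n : ℕ) (v : ℕ → ℝ × ℝ) (i : ℕ) : Set (ℝ × ℝ) := segment ℝ (v i) (v ((i + 1) % n))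

/-- the closed polygonal curve with the vertices `v 0, …, v (n - 1)` -/
def curve (n : ℕ) (v : ℕ → ℝ × ℝ) : Set (ℝ × ℝ) := {p | ∃ i < n, p ∈ edge n v i}

/-- `v 0, …, v (n - 1)` are the vertices of a simple polygon: consecutive edges meet exactly in
their common vertex, other edges are disjoint, and no three consecutive vertices are collinear
(so that there are exactly `n` vertices). -/
structure IsSimplePolygon (n : ℕ) (v : ℕ → ℝ × ℝ) : Prop where
  three_le : 3 ≤ n
  adjacent : ∀ i < n, edge n v i ∩ edge n v ((i + 1) % n) = {v ((i + 1) % n)}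
  nonadjacent : ∀ i < n, ∀ j < n, i ≠ j → (i + 1) % n ≠ j → (j + 1) % n ≠ i →
    Disjoint (edge n v i) (edge n v j)
  genuine : ∀ i < n, orient (v i) (v ((i + 1) % n)) (v ((i + 2) % n)) ≠ 0

/-- The closed region bounded by the closed curve: the points which lie on the curve or in a
bounded component of its complement, that is, the points `p` such that every connected set
containing `p` and disjoint from the curve is bounded. -/
def region (n : ℕ) (v : ℕ → ℝ × ℝ) : Set (ℝ × ℝ) :=
  {p | ∀ S : Set (ℝ × ℝ), IsConnected S → p ∈ S → Disjoint S (curve n v) →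
    Bornology.IsBounded S}

/-- the closed half-plane with inner normal `N` whose boundary line passes through `p` -/
def halfPlane (p N : ℝ × ℝ) : Set (ℝ × ℝ) :=
  {q | 0 ≤ N.1 * (q.1 - p.1) + N.2 * (q.2 - p.2)}

/-- The half-plane `H` is inward-facing at the vertex `p` of the polygon `P`: near `p` one of `H`
and `P` is contained in the other (`H ⊆ P` is only possible at a reflex vertex and `P ⊆ H` only
at a convex vertex). -/
def InwardFacing (P : Set (ℝ × ℝ)) (p : ℝ × ℝ) (H : Set (ℝ × ℝ)) : Prop :=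
  (∀ᶠ q in 𝓝 p, q ∈ H → q ∈ P) ∨ ∀ᶠ q in 𝓝 p, q ∈ P → q ∈ H

/-- `S` and `N` describe a set of inward-facing `π`-floodlights, at most one at each vertex: one
at each vertex `v i`, `i ∈ S`, with the half-plane `halfPlane (v i) (N i)`. -/
def IsLightSet (n : ℕ) (v : ℕ → ℝ × ℝ) (S : Finset ℕ) (N : ℕ → ℝ × ℝ) : Prop :=
  ∀ i ∈ S, i < n ∧ N i ≠ 0 ∧ InwardFacing (region n v) (v i) (halfPlane (v i) (N i))

/-- the point `q` is illuminated by the floodlight at `p` with normal `N` -/
def Lit (P : Set (ℝ × ℝ)) (p N q : ℝ × ℝ) : Prop := q ∈ halfPlane p N ∧ segment ℝ p q ⊆ P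

/-- the floodlights illuminate the polygon -/
def Illuminates (n : ℕ) (v : ℕ → ℝ × ℝ) (S : Finset ℕ) (N : ℕ → ℝ × ℝ) : Prop :=
  ∀ q ∈ region n v, ∃ i ∈ S, Lit (region n v) (v i) (N i) q

/-- `f n` is the least `k` such that every simple polygon with `n` vertices can be illuminated by
at most `k` inward-facing `π`-floodlights, at most one at each vertex (`⊤` if there is none). -/
noncomputable def f (n : ℕ) : ℕ∞ :=
  sInf {k : ℕ∞ | ∀ v : ℕ → ℝ × ℝ, IsSimplePolygon n v →
    ∃ (S : Finset ℕ) (N : ℕ → ℝ × ℝ), IsLightSet n v S N ∧ Illuminates n v S N ∧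
      (S.card : ℕ∞) ≤ k}

end Pool.Agent.H54.Fl
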