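import Pool.Agent.H54.Fl.Poly2

/-!
Inward-facing half-planes at the reflex vertices of a monotone polygon.
-/

namespace Pool.Agent.H54.Fl

open Set Filter Topology

theorem tendsto_ray (c d : ℝ × ℝ) :
    Tendsto (fun s : ℝ => c + s • d) (𝓝[>] (0 : ℝ)) (𝓝 c) := by
  have h1 : Tendsto (fun s : ℝ => c + s • d) (𝓝 (0 : ℝ)) (𝓝 (c + (0 : ℝ) • d)) :=
    Continuous.tendsto (by fun_prop) 0
  rw [zero_smul, add_zero] at h1
  exact h1.mono_left nhdsWithin_le_nhds

theorem mem_halfPlane_ray {c d N : ℝ × ℝ} {s : ℝ} (hs : 0 < s) :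
    c + s • d ∈ halfPlane c N ↔ 0 ≤ N.1 * d.1 + N.2 * d.2 := by
  unfold halfPlane
  simp only [mem_ofPred_eq, Prod.fst_add, Prod.snd_add, Prod.smul_fst, Prod.smul_snd, smul_eq_mul,
    add_sub_cancel_left]
  rw [show N.1 * (s * d.1) + N.2 * (s * d.2) = s * (N.1 * d.1 + N.2 * d.2) by ring,
    mul_nonneg_iff_of_pos_left hs]

theorem inward_aux {P : Set (ℝ × ℝ)} {c N u w : ℝ × ℝ} {σ : ℝ} (hσ : σ = 1 ∨ σ = -1)
    (hu : 0 < u.1) (hw : w.1 < 0) (hcross : σ * (u.1 * w.2 - u.2 * w.1) < 0) (hN : N ≠ 0)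
    (hin : InwardFacing P c (halfPlane c N))
    (houtu : ∀ δ : ℝ, 0 < δ → ∀ᶠ s in 𝓝[>] (0 : ℝ), c + s • (u - (0, σ * δ)) ∉ P)
    (houtw : ∀ δ : ℝ, 0 < δ → ∀ᶠ s in 𝓝[>] (0 : ℝ), c + s • (w - (0, σ * δ)) ∉ P)
    (hPu : ∀ᶠ s in 𝓝[>] (0 : ℝ), c + s • u ∈ P)
    (hPw : ∀ᶠ s in 𝓝[>] (0 : ℝ), c + s • w ∈ P)
    (hPv : ∀ᶠ s in 𝓝[>] (0 : ℝ), c + s • ((0, σ) : ℝ × ℝ) ∈ P) :
    N.1 * u.1 + N.2 * u.2 ≤ 0 ∧ N.1 * w.1 + N.2 * w.2 ≤ 0 := by
  have hpos : ∀ᶠ s in 𝓝[>] (0 : ℝ), 0 < s := eventually_mem_nhdsWithin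
  rcases hin with h1 | h1
  · have key : ∀ d : ℝ × ℝ, (∀ δ : ℝ, 0 < δ → ∀ᶠ s in 𝓝[>] (0 : ℝ),
        c + s • (d - (0, σ * δ)) ∉ P) → N.1 * d.1 + N.2 * d.2 ≤ 0 := by
      intro d hd
      by_contra hne
      rw [not_le] at hne
      set A : ℝ := N.1 * d.1 + N.2 * d.2 with hA
      set δ : ℝ := A / (|N.2| + 1) with hδ
      have h2 : 0 < |N.2| + 1 := by positivity
      have hδ0 : 0 < δ := div_pos hne h2
      have h3 : 0 ≤ N.1 * (d - (0, σ * δ)).1 + N.2 * (d - (0, σ * δ)).2 := by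
        simp only [Prod.fst_sub, Prod.snd_sub, sub_zero]
        have h4 : N.2 * (σ * δ) ≤ |N.2| * δ := by
          rcases hσ with rfl | rfl
          · rw [one_mul]
            exact mul_le_mul_of_nonneg_right (le_abs_self _) hδ0.le
          · rw [neg_one_mul, mul_neg, ← neg_mul]
            exact mul_le_mul_of_nonneg_right (neg_le_abs _) hδ0.le
        have h5 : |N.2| * δ ≤ A := by
          have : (|N.2| + 1) * δ = A := by
            rw [hδ]
            field_simp
          nlinarith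
        have : N.1 * d.1 + N.2 * (d.2 - σ * δ) = A - N.2 * (σ * δ) := by
          rw [hA]
          ring
        rw [this]
        linarith
      obtain ⟨s, hs1, hs2, hs3⟩ := (((tendsto_ray c (d - (0, σ * δ))).eventually h1).and
        ((hd δ hδ0).and hpos)).exists
      exact hs2 (hs1 ((mem_halfPlane_ray hs3).2 h3))
    exact ⟨key u houtu, key w houtw⟩
  · exfalso
    have key : ∀ d : ℝ × ℝ, (∀ᶠ s in 𝓝[>] (0 : ℝ), c + s • d ∈ P) →
        0 ≤ N.1 * d.1 + N.2 * d.2 := by
      intro d hd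
      obtain ⟨s, hs1, hs2, hs3⟩ := (((tendsto_ray c d).eventually h1).and
        (hd.and hpos)).exists
      exact (mem_halfPlane_ray hs3).1 (hs1 hs2)
    have k1 := key u hPu
    have k2 := key w hPw
    have k3 := key _ hPv
    simp only [mul_zero, zero_add] at k3
    have e1 : w.1 * (N.1 * u.1 + N.2 * u.2) - u.1 * (N.1 * w.1 + N.2 * w.2) =
        -(N.2 * (u.1 * w.2 - u.2 * w.1)) := by ring
    have e2 : N.2 * (u.1 * w.2 - u.2 * w.1) ≤ 0 := by
      rcases hσ with rfl | rfl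
      · rw [mul_one] at k3
        rw [one_mul] at hcross
        exact mul_nonpos_of_nonneg_of_nonpos k3 hcross.le
      · have h5 : N.2 ≤ 0 := by linarith
        have h6 : 0 ≤ u.1 * w.2 - u.2 * w.1 := by linarith
        exact mul_nonpos_of_nonpos_of_nonneg h5 h6
    have e3 : w.1 * (N.1 * u.1 + N.2 * u.2) ≤ 0 := mul_nonpos_of_nonpos_of_nonneg hw.le k1
    have e4 : 0 ≤ u.1 * (N.1 * w.1 + N.2 * w.2) := mul_nonneg hu.le k2
    have e5 : w.1 * (N.1 * u.1 + N.2 * u.2) = 0 := by linarith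
    have e6 : N.2 * (u.1 * w.2 - u.2 * w.1) = 0 := by linarith
    have e7 : u.1 * w.2 - u.2 * w.1 ≠ 0 := by
      intro h7
      rw [h7, mul_zero] at hcross
      exact lt_irrefl _ hcross
    have e8 : N.2 = 0 := (mul_eq_zero.1 e6).resolve_right e7
    have e9 : N.1 * u.1 + N.2 * u.2 = 0 := (mul_eq_zero.1 e5).resolve_left hw.ne
    rw [e8, zero_mul, add_zero] at e9
    have e10 : N.1 = 0 := (mul_eq_zero.1 e9).resolve_right hu.ne'
    exact hN (Prod.ext e10 e8)

section

variable {m l : ℕ} {p q : ℕ → ℝ × ℝ} (h : Mono m l p q)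

include h

theorem Mono.inward_lo {i : ℕ} (h1 : i + 2 ≤ m) (ho : orient (p i) (p (i + 1)) (p (i + 2)) < 0)
    {N : ℝ × ℝ} (hN : N ≠ 0) (hin : InwardFacing (region (m + l) (vert m l p q)) (p (i + 1))
      (halfPlane (p (i + 1)) N)) :
    N.1 * ((p (i + 2)).1 - (p (i + 1)).1) + N.2 * ((p (i + 2)).2 - (p (i + 1)).2) ≤ 0 ∧
    N.1 * ((p i).1 - (p (i + 1)).1) + N.2 * ((p i).2 - (p (i + 1)).2) ≤ 0 := by
  have x1 := h.px i (by omega)
  have x2 := h.px (i + 1) (by omega)
  have y0 : (p 0).1 ≤ (p i).1 := chain_le h.px (Nat.zero_le _) (by omega)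
  have y1 : (p (i + 2)).1 ≤ (p m).1 := chain_le h.px h1 le_rfl
  have hpos : ∀ᶠ s in 𝓝[>] (0 : ℝ), 0 < s := eventually_mem_nhdsWithin
  have hlt1 : ∀ᶠ s in 𝓝[>] (0 : ℝ), s < 1 :=
    nhdsWithin_le_nhds (Iio_mem_nhds one_pos)
  have := inward_aux (P := region (m + l) (vert m l p q)) (c := p (i + 1)) (N := N)
    (u := p (i + 2) - p (i + 1)) (w := p i - p (i + 1)) (σ := 1) (Or.inl rfl)
    (by simp only [Prod.fst_sub]; linarith) (by simp only [Prod.fst_sub]; linarith)
    (by
      simp only [Prod.fst_sub, Prod.snd_sub, one_mul]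
      unfold orient at ho
      linarith) hN hin ?_ ?_ ?_ ?_ ?_
  · simpa using this
  · intro δ hδ
    filter_upwards [hpos, hlt1] with s hs hs1 hmem
    have h2 := (h.mem_region.1 hmem).2.1
    rw [pl_le_iff h.px (i := i + 1) (by omega)] at h2
    · unfold orient at h2
      simp only [Prod.fst_add, Prod.snd_add, Prod.smul_fst, Prod.smul_snd, Prod.fst_sub,
        Prod.snd_sub, smul_eq_mul, one_mul] at h2
      have h3 : 0 < ((p (i + 2)).1 - (p (i + 1)).1) * (s * δ) := by
        have : 0 < (p (i + 2)).1 - (p (i + 1)).1 := by linarith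
        positivity
      have e : i + 1 + 1 = i + 2 := rfl
      rw [e] at h2
      nlinarith
    · simp only [Prod.fst_add, Prod.smul_fst, Prod.fst_sub, smul_eq_mul]
      nlinarith
    · simp only [Prod.fst_add, Prod.smul_fst, Prod.fst_sub, smul_eq_mul]
      have e : i + 1 + 1 = i + 2 := rfl
      rw [e]
      nlinarith
  · intro δ hδ
    filter_upwards [hpos, hlt1] with s hs hs1 hmem
    have h2 := (h.mem_region.1 hmem).2.1
    rw [pl_le_iff h.px (i := i) (by omega)] at h2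
    · unfold orient at h2
      simp only [Prod.fst_add, Prod.snd_add, Prod.smul_fst, Prod.smul_snd, Prod.fst_sub,
        Prod.snd_sub, smul_eq_mul, one_mul] at h2
      have h3 : 0 < ((p (i + 1)).1 - (p i).1) * (s * δ) := by
        have : 0 < (p (i + 1)).1 - (p i).1 := by linarith
        positivity
      nlinarith
    · simp only [Prod.fst_add, Prod.smul_fst, Prod.fst_sub, smul_eq_mul]
      nlinarith
    · simp only [Prod.fst_add, Prod.smul_fst, Prod.fst_sub, smul_eq_mul]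
      nlinarith
  · filter_upwards [hpos, hlt1] with s hs hs1
    have hx1 : (p (i + 1)).1 ≤ (p (i + 1) + s • (p (i + 2) - p (i + 1))).1 := by
      simp only [Prod.fst_add, Prod.smul_fst, Prod.fst_sub, smul_eq_mul]
      nlinarith
    have hx2 : (p (i + 1) + s • (p (i + 2) - p (i + 1))).1 ≤ (p (i + 2)).1 := by
      simp only [Prod.fst_add, Prod.smul_fst, Prod.fst_sub, smul_eq_mul]
      nlinarith
    have ho : orient (p (i + 1)) (p (i + 1 + 1)) (p (i + 1) + s • (p (i + 2) - p (i + 1))) = 0 := by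
      unfold orient
      simp only [Prod.fst_add, Prod.snd_add, Prod.smul_fst, Prod.smul_snd, Prod.fst_sub,
        Prod.snd_sub, smul_eq_mul]
      ring
    rw [h.mem_region]
    refine ⟨⟨by linarith, by linarith⟩, (pl_le_iff h.px (i := i + 1) (by omega) hx1 hx2).2 ho.ge,
      ((le_pl_iff h.px (i := i + 1) (by omega) hx1 hx2).2 ho.le).trans
        (h.le (by linarith) (by linarith))⟩
  · filter_upwards [hpos, hlt1] with s hs hs1
    have hx1 : (p i).1 ≤ (p (i + 1) + s • (p i - p (i + 1))).1 := by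
      simp only [Prod.fst_add, Prod.smul_fst, Prod.fst_sub, smul_eq_mul]
      nlinarith
    have hx2 : (p (i + 1) + s • (p i - p (i + 1))).1 ≤ (p (i + 1)).1 := by
      simp only [Prod.fst_add, Prod.smul_fst, Prod.fst_sub, smul_eq_mul]
      nlinarith
    have ho : orient (p i) (p (i + 1)) (p (i + 1) + s • (p i - p (i + 1))) = 0 := by
      unfold orient
      simp only [Prod.fst_add, Prod.snd_add, Prod.smul_fst, Prod.smul_snd, Prod.fst_sub,
        Prod.snd_sub, smul_eq_mul]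
      ring
    rw [h.mem_region]
    refine ⟨⟨by linarith, by linarith⟩, (pl_le_iff h.px (i := i) (by omega) hx1 hx2).2 ho.ge,
      ((le_pl_iff h.px (i := i) (by omega) hx1 hx2).2 ho.le).trans
        (h.le (by linarith) (by linarith))⟩
  · have h5 := h.lt (p (i + 1)).1 (by linarith) (by linarith)
    rw [pl_vertex h.px (by omega)] at h5
    have hlt2 : ∀ᶠ s in 𝓝[>] (0 : ℝ), s < pl l q (p (i + 1)).1 - (p (i + 1)).2 :=
      nhdsWithin_le_nhds (Iio_mem_nhds (by linarith))
    filter_upwards [hpos, hlt2] with s hs hs1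
    rw [h.mem_region]
    simp only [Prod.fst_add, Prod.snd_add, Prod.smul_fst, Prod.smul_snd, smul_eq_mul, mul_zero,
      add_zero, mul_one]
    refine ⟨⟨by linarith, by linarith⟩, ?_, by linarith⟩
    rw [pl_vertex h.px (by omega)]
    linarith

theorem Mono.inward_hi {i : ℕ} (h1 : i + 2 ≤ l) (ho : 0 < orient (q i) (q (i + 1)) (q (i + 2)))
    {N : ℝ × ℝ} (hN : N ≠ 0) (hin : InwardFacing (region (m + l) (vert m l p q)) (q (i + 1))
      (halfPlane (q (i + 1)) N)) :
    N.1 * ((q (i + 2)).1 - (q (i + 1)).1) + N.2 * ((q (i + 2)).2 - (q (i + 1)).2) ≤ 0 ∧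
    N.1 * ((q i).1 - (q (i + 1)).1) + N.2 * ((q i).2 - (q (i + 1)).2) ≤ 0 := by
  have x1 := h.qx i (by omega)
  have x2 := h.qx (i + 1) (by omega)
  have y0 : (q 0).1 ≤ (q i).1 := chain_le h.qx (Nat.zero_le _) (by omega)
  have y1 : (q (i + 2)).1 ≤ (q l).1 := chain_le h.qx h1 le_rfl
  have hh0 : (p 0).1 = (q 0).1 := by rw [h.h0]
  have hh1 : (p m).1 = (q l).1 := by rw [h.h1]
  have hpos : ∀ᶠ s in 𝓝[>] (0 : ℝ), 0 < s := eventually_mem_nhdsWithin
  have hlt1 : ∀ᶠ s in 𝓝[>] (0 : ℝ), s < 1 :=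
    nhdsWithin_le_nhds (Iio_mem_nhds one_pos)
  have := inward_aux (P := region (m + l) (vert m l p q)) (c := q (i + 1)) (N := N)
    (u := q (i + 2) - q (i + 1)) (w := q i - q (i + 1)) (σ := -1) (Or.inr rfl)
    (by simp only [Prod.fst_sub]; linarith) (by simp only [Prod.fst_sub]; linarith)
    (by
      simp only [Prod.fst_sub, Prod.snd_sub]
      unfold orient at ho
      linarith) hN hin ?_ ?_ ?_ ?_ ?_
  · simpa using this
  · intro δ hδ
    filter_upwards [hpos, hlt1] with s hs hs1 hmem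
    have h2 := (h.mem_region.1 hmem).2.2
    rw [le_pl_iff h.qx (i := i + 1) (by omega)] at h2
    · unfold orient at h2
      simp only [Prod.fst_add, Prod.snd_add, Prod.smul_fst, Prod.smul_snd, Prod.fst_sub,
        Prod.snd_sub, smul_eq_mul] at h2
      have h3 : 0 < ((q (i + 2)).1 - (q (i + 1)).1) * (s * δ) := by
        have : 0 < (q (i + 2)).1 - (q (i + 1)).1 := by linarith
        positivity
      have e : i + 1 + 1 = i + 2 := rfl
      rw [e] at h2
      nlinarith
    · simp only [Prod.fst_add, Prod.smul_fst, Prod.fst_sub, smul_eq_mul]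
      nlinarith
    · simp only [Prod.fst_add, Prod.smul_fst, Prod.fst_sub, smul_eq_mul]
      have e : i + 1 + 1 = i + 2 := rfl
      rw [e]
      nlinarith
  · intro δ hδ
    filter_upwards [hpos, hlt1] with s hs hs1 hmem
    have h2 := (h.mem_region.1 hmem).2.2
    rw [le_pl_iff h.qx (i := i) (by omega)] at h2
    · unfold orient at h2
      simp only [Prod.fst_add, Prod.snd_add, Prod.smul_fst, Prod.smul_snd, Prod.fst_sub,
        Prod.snd_sub, smul_eq_mul] at h2
      have h3 : 0 < ((q (i + 1)).1 - (q i).1) * (s * δ) := by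
        have : 0 < (q (i + 1)).1 - (q i).1 := by linarith
        positivity
      nlinarith
    · simp only [Prod.fst_add, Prod.smul_fst, Prod.fst_sub, smul_eq_mul]
      nlinarith
    · simp only [Prod.fst_add, Prod.smul_fst, Prod.fst_sub, smul_eq_mul]
      nlinarith
  · filter_upwards [hpos, hlt1] with s hs hs1
    have hx1 : (q (i + 1)).1 ≤ (q (i + 1) + s • (q (i + 2) - q (i + 1))).1 := by
      simp only [Prod.fst_add, Prod.smul_fst, Prod.fst_sub, smul_eq_mul]
      nlinarith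
    have hx2 : (q (i + 1) + s • (q (i + 2) - q (i + 1))).1 ≤ (q (i + 2)).1 := by
      simp only [Prod.fst_add, Prod.smul_fst, Prod.fst_sub, smul_eq_mul]
      nlinarith
    have ho : orient (q (i + 1)) (q (i + 1 + 1)) (q (i + 1) + s • (q (i + 2) - q (i + 1))) = 0 := by
      unfold orient
      simp only [Prod.fst_add, Prod.snd_add, Prod.smul_fst, Prod.smul_snd, Prod.fst_sub,
        Prod.snd_sub, smul_eq_mul]
      ring
    rw [h.mem_region]
    refine ⟨⟨by linarith, by linarith⟩, (h.le (by linarith) (by linarith)).trans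
      ((pl_le_iff h.qx (i := i + 1) (by omega) hx1 hx2).2 ho.ge),
      (le_pl_iff h.qx (i := i + 1) (by omega) hx1 hx2).2 ho.le⟩
  · filter_upwards [hpos, hlt1] with s hs hs1
    have hx1 : (q i).1 ≤ (q (i + 1) + s • (q i - q (i + 1))).1 := by
      simp only [Prod.fst_add, Prod.smul_fst, Prod.fst_sub, smul_eq_mul]
      nlinarith
    have hx2 : (q (i + 1) + s • (q i - q (i + 1))).1 ≤ (q (i + 1)).1 := by
      simp only [Prod.fst_add, Prod.smul_fst, Prod.fst_sub, smul_eq_mul]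
      nlinarith
    have ho : orient (q i) (q (i + 1)) (q (i + 1) + s • (q i - q (i + 1))) = 0 := by
      unfold orient
      simp only [Prod.fst_add, Prod.snd_add, Prod.smul_fst, Prod.smul_snd, Prod.fst_sub,
        Prod.snd_sub, smul_eq_mul]
      ring
    rw [h.mem_region]
    refine ⟨⟨by linarith, by linarith⟩, (h.le (by linarith) (by linarith)).trans
      ((pl_le_iff h.qx (i := i) (by omega) hx1 hx2).2 ho.ge),
      (le_pl_iff h.qx (i := i) (by omega) hx1 hx2).2 ho.le⟩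
  · have h5 := h.lt (q (i + 1)).1 (by linarith) (by linarith)
    rw [pl_vertex h.qx (by omega)] at h5
    have hlt2 : ∀ᶠ s in 𝓝[>] (0 : ℝ), s < (q (i + 1)).2 - pl m p (q (i + 1)).1 :=
      nhdsWithin_le_nhds (Iio_mem_nhds (by linarith))
    filter_upwards [hpos, hlt2] with s hs hs1
    rw [h.mem_region]
    simp only [Prod.fst_add, Prod.snd_add, Prod.smul_fst, Prod.smul_snd, smul_eq_mul, mul_zero,
      add_zero, mul_neg, mul_one]
    refine ⟨⟨by linarith, by linarith⟩, by linarith, ?_⟩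
    rw [pl_vertex h.qx (by omega)]
    linarith

end

end Pool.Agent.H54.Fl
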