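import Pool.Agent.H54.Fl.Defs

/-!
General facts on `x`-monotone polygons.
-/

namespace Pool.Agent.H54.Fl

open Set Filter Topology

/-- the piecewise linear function through the points `p 0, …, p m` -/
noncomputable def pl (m : ℕ) (p : ℕ → ℝ × ℝ) (x : ℝ) : ℝ :=
  (p 0).2 + ∑ i ∈ Finset.range m, ((p (i + 1)).2 - (p i).2) / ((p (i + 1)).1 - (p i).1) *
    max 0 (min (x - (p i).1) ((p (i + 1)).1 - (p i).1))

theorem pl_succ (m : ℕ) (p : ℕ → ℝ × ℝ) (x : ℝ) : pl (m + 1) p x = pl m p x +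
    ((p (m + 1)).2 - (p m).2) / ((p (m + 1)).1 - (p m).1) *
    max 0 (min (x - (p m).1) ((p (m + 1)).1 - (p m).1)) := by
  unfold pl
  rw [Finset.sum_range_succ]
  ring

theorem pl_zero (p : ℕ → ℝ × ℝ) (x : ℝ) : pl 0 p x = (p 0).2 := by
  unfold pl
  simp

theorem continuous_pl (m : ℕ) (p : ℕ → ℝ × ℝ) : Continuous (pl m p) := by
  unfold pl
  fun_prop

section chain

variable {m : ℕ} {p : ℕ → ℝ × ℝ} (hp : ∀ i < m, (p i).1 < (p (i + 1)).1)

include hp in
theorem chain_le {i j : ℕ} (hij : i ≤ j) (hj : j ≤ m) : (p i).1 ≤ (p j).1 := by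
  induction j with
  | zero =>
    obtain rfl : i = 0 := by omega
    exact le_rfl
  | succ j ih =>
    rcases Nat.lt_or_ge i (j + 1) with h | h
    · exact (ih (by omega) (by omega)).trans (hp j (by omega)).le
    · obtain rfl : i = j + 1 := by omega
      exact le_rfl

include hp in
theorem chain_lt {i j : ℕ} (hij : i < j) (hj : j ≤ m) : (p i).1 < (p j).1 :=
  (hp i (by omega)).trans_le (chain_le hp hij hj)

include hp in
theorem exists_edge {x : ℝ} (h0 : (p 0).1 ≤ x) (h1 : x ≤ (p m).1) (hm : 0 < m) :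
    ∃ i < m, (p i).1 ≤ x ∧ x ≤ (p (i + 1)).1 := by
  induction m with
  | zero => omega
  | succ m ih =>
    by_cases h : x ≤ (p m).1 ∧ 0 < m
    · obtain ⟨i, hi, h2⟩ := ih (fun i hi => hp i (by omega)) h.1 h.2
      exact ⟨i, by omega, h2⟩
    · refine ⟨m, by omega, ?_, h1⟩
      rcases Nat.eq_zero_or_pos m with h3 | h3
      · rw [h3]; exact h0
      · by_contra h4
        exact h ⟨(not_le.1 h4).le, h3⟩

include hp in
theorem pl_ge {m' : ℕ} (hm' : m' ≤ m) {x : ℝ} (hx : (p m').1 ≤ x) : pl m' p x = (p m').2 := by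
  induction m' with
  | zero => exact pl_zero p x
  | succ k ih =>
    have h1 := hp k (by omega)
    rw [pl_succ, ih (by omega) (h1.le.trans hx), min_eq_right (by linarith),
      max_eq_right (by linarith)]
    have h2 : (p (k + 1)).1 - (p k).1 ≠ 0 := by linarith
    field_simp
    ring

include hp in
theorem pl_trunc {m' : ℕ} (hm' : m' ≤ m) {x : ℝ} (hx : x ≤ (p m').1) : pl m p x = pl m' p x := by
  induction m with
  | zero =>
    obtain rfl : m' = 0 := by omega
    rfl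
  | succ k ih =>
    rcases Nat.lt_or_ge m' (k + 1) with h | h
    · rw [pl_succ, ih (fun i hi => hp i (by omega)) (by omega)]
      have h1 : (p m').1 ≤ (p k).1 := chain_le (m := k) (fun i hi => hp i (by omega)) (by omega)
        le_rfl
      rw [max_eq_left ((min_le_left _ _).trans (by linarith))]
      ring
    · obtain rfl : m' = k + 1 := by omega
      rfl

include hp in
/-- the value on the `i`-th interval -/
theorem pl_eq {i : ℕ} (hi : i < m) {x : ℝ} (h1 : (p i).1 ≤ x) (h2 : x ≤ (p (i + 1)).1) :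
    pl m p x = (p i).2 + ((p (i + 1)).2 - (p i).2) / ((p (i + 1)).1 - (p i).1) * (x - (p i).1) := by
  rw [pl_trunc hp (m' := i + 1) hi h2, pl_succ, pl_ge hp hi.le h1, min_eq_left (by linarith),
    max_eq_right (by linarith)]

include hp in
theorem pl_vertex {i : ℕ} (hi : i ≤ m) : pl m p (p i).1 = (p i).2 := by
  rw [pl_trunc hp hi le_rfl, pl_ge hp hi le_rfl]

include hp in
theorem pl_le_iff {i : ℕ} (hi : i < m) {z : ℝ × ℝ} (h1 : (p i).1 ≤ z.1) (h2 : z.1 ≤ (p (i + 1)).1) :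
    pl m p z.1 ≤ z.2 ↔ 0 ≤ orient (p i) (p (i + 1)) z := by
  rw [pl_eq hp hi h1 h2]
  have h3 := hp i hi
  have h4 : 0 < (p (i + 1)).1 - (p i).1 := by linarith
  unfold orient
  rw [← sub_nonneg, ← mul_nonneg_iff_of_pos_left h4]
  have : ((p (i + 1)).1 - (p i).1) * (z.2 - ((p i).2 + ((p (i + 1)).2 - (p i).2) /
      ((p (i + 1)).1 - (p i).1) * (z.1 - (p i).1))) = ((p (i + 1)).1 - (p i).1) *
      (z.2 - (p i).2) - ((p (i + 1)).2 - (p i).2) * (z.1 - (p i).1) := by
    field_simp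
    ring
  rw [this]

include hp in
theorem le_pl_iff {i : ℕ} (hi : i < m) {z : ℝ × ℝ} (h1 : (p i).1 ≤ z.1) (h2 : z.1 ≤ (p (i + 1)).1) :
    z.2 ≤ pl m p z.1 ↔ orient (p i) (p (i + 1)) z ≤ 0 := by
  rw [pl_eq hp hi h1 h2]
  have h3 := hp i hi
  have h4 : 0 < (p (i + 1)).1 - (p i).1 := by linarith
  unfold orient
  rw [← sub_nonneg, ← mul_nonneg_iff_of_pos_left h4]
  have : ((p (i + 1)).1 - (p i).1) * ((p i).2 + ((p (i + 1)).2 - (p i).2) /
      ((p (i + 1)).1 - (p i).1) * (z.1 - (p i).1) - z.2) = -(((p (i + 1)).1 - (p i).1) *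
      (z.2 - (p i).2) - ((p (i + 1)).2 - (p i).2) * (z.1 - (p i).1)) := by
    field_simp
    ring
  rw [this, neg_nonneg]

theorem mem_segment_iff {a b z : ℝ × ℝ} (hab : a.1 < b.1) :
    z ∈ segment ℝ a b ↔ (a.1 ≤ z.1 ∧ z.1 ≤ b.1) ∧ orient a b z = 0 := by
  have h0 : 0 < b.1 - a.1 := by linarith
  constructor
  · rintro ⟨s, t, hs, ht, hst, rfl⟩
    obtain rfl : s = 1 - t := by linarith
    simp only [smul_eq_mul, Prod.fst_add, Prod.snd_add, Prod.smul_fst, Prod.smul_snd, orient]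
    refine ⟨⟨?_, ?_⟩, ?_⟩
    · nlinarith
    · nlinarith
    · ring
  · rintro ⟨⟨h1, h2⟩, h3⟩
    refine ⟨(b.1 - z.1) / (b.1 - a.1), (z.1 - a.1) / (b.1 - a.1), div_nonneg (by linarith) h0.le,
      div_nonneg (by linarith) h0.le, ?_, ?_⟩
    · field_simp
      ring
    · refine Prod.ext ?_ ?_
      · simp only [Prod.fst_add, Prod.smul_fst, smul_eq_mul]
        field_simp
        ring
      · simp only [Prod.snd_add, Prod.smul_snd, smul_eq_mul]
        unfold orient at h3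
        field_simp
        linarith

include hp in
theorem mem_segment_chain {i : ℕ} (hi : i < m) {z : ℝ × ℝ} :
    z ∈ segment ℝ (p i) (p (i + 1)) ↔ ((p i).1 ≤ z.1 ∧ z.1 ≤ (p (i + 1)).1) ∧
      z.2 = pl m p z.1 := by
  rw [mem_segment_iff (hp i hi)]
  refine and_congr_right fun h => ?_
  rw [le_antisymm_iff, le_antisymm_iff, le_pl_iff hp hi h.1 h.2, pl_le_iff hp hi h.1 h.2]

end chain

end Pool.Agent.H54.Fl
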