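import Pool.Agent.H54.Fl.Data

/-!
The polygon with `14 k + 1` vertices.
-/

namespace Pool.Agent.H54.Fl

open Set

/-- the `j`-th translate (by a power of an affine map) of an integer point -/
def T (j : ℕ) (p : ℤ × ℤ) : ℝ × ℝ :=
  ((p.1 : ℝ) + j * 2453, (p.2 : ℝ) + 2 * j * p.1 + 2453 * j ^ 2)

/-- the inverse of the `j`-th power of the affine map -/
def U (j : ℕ) (z : ℝ × ℝ) : ℝ × ℝ :=
  (z.1 - j * 2453, z.2 - 2 * j * (z.1 - j * 2453) - 2453 * j ^ 2)

/-- integer points as real points -/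
def ic (p : ℤ × ℤ) : ℝ × ℝ := ((p.1 : ℝ), (p.2 : ℝ))

theorem T_fst (j : ℕ) (p : ℤ × ℤ) : (T j p).1 = (p.1 : ℝ) + j * 2453 := rfl

theorem T_succ (j : ℕ) (p : ℤ × ℤ) : T (j + 1) p = T j (sh p) := by
  unfold T sh
  refine Prod.ext ?_ ?_
  · simp only
    push_cast
    ring
  · simp only
    push_cast
    ring

theorem T_un (j : ℕ) (p : ℤ × ℤ) : T (j + 1) (un p) = T j p := by
  unfold T un
  refine Prod.ext ?_ ?_
  · simp only
    push_cast
    ring
  · simp only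
    push_cast
    ring

theorem orient_T (j : ℕ) (a b c : ℤ × ℤ) : orient (T j a) (T j b) (T j c) = (oz a b c : ℝ) := by
  unfold orient T oz
  simp only
  push_cast
  ring

theorem orient_TT (j : ℕ) (a b : ℤ × ℤ) (z : ℝ × ℝ) :
    orient (T j a) (T j b) z = orient (ic a) (ic b) (U j z) := by
  unfold orient T U ic
  simp only
  ring

theorem V10_eq (j : ℕ) : T j (V 10) = T (j + 1) (V 0) := by
  rw [T_succ]
  rfl

/-- the lower chain -/
def lo (i : ℕ) : ℝ × ℝ := T (i / 10) (V (i % 10))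

/-- the upper chain of the polygon with `k` periods -/
def hi (k i : ℕ) : ℝ × ℝ :=
  if i = 0 then T 0 (V 0) else if i ≤ 4 * k then T ((i - 1) / 4) (V (14 - (i - 1) % 4))
    else T k (V 0)

theorem lo_eq (j : ℕ) {r : ℕ} (hr : r ≤ 10) : lo (10 * j + r) = T j (V r) := by
  rcases Nat.lt_or_ge r 10 with h | h
  · unfold lo
    rw [show (10 * j + r) / 10 = j by omega, show (10 * j + r) % 10 = r by omega]
  · obtain rfl : r = 10 := by omega
    unfold lo
    rw [show (10 * j + 10) / 10 = j + 1 by omega, show (10 * j + 10) % 10 = 0 by omega, V10_eq]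

theorem hi_eq {k j r : ℕ} (hj : j < k) (h1 : 11 ≤ r) (h2 : r ≤ 14) :
    hi k (4 * j + (15 - r)) = T j (V r) := by
  unfold hi
  rw [if_neg (by omega), if_pos (by omega), show (4 * j + (15 - r) - 1) / 4 = j by omega,
    show 14 - (4 * j + (15 - r) - 1) % 4 = r by omega]

theorem hi_zero (k : ℕ) : hi k 0 = T 0 (V 0) := if_pos rfl

theorem hi_last (k : ℕ) : hi k (4 * k + 1) = T k (V 0) := by
  unfold hi
  rw [if_neg (by omega), if_neg (by omega)]

theorem lo_last (k : ℕ) : lo (10 * k) = T k (V 0) := lo_eq k (Nat.zero_le _)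

theorem T_lt {j : ℕ} {p q : ℤ × ℤ} (h : p.1 < q.1) : (T j p).1 < (T j q).1 := by
  rw [T_fst, T_fst]
  have : (p.1 : ℝ) < q.1 := by exact_mod_cast h
  linarith

theorem T_le {j : ℕ} {p q : ℤ × ℤ} (h : p.1 ≤ q.1) : (T j p).1 ≤ (T j q).1 := by
  rw [T_fst, T_fst]
  have : (p.1 : ℝ) ≤ q.1 := by exact_mod_cast h
  linarith

theorem lo_x (i : ℕ) : (lo i).1 < (lo (i + 1)).1 := by
  obtain ⟨j, r, hr, rfl⟩ : ∃ j r, r < 10 ∧ i = 10 * j + r :=
    ⟨i / 10, i % 10, Nat.mod_lt _ (by norm_num), by omega⟩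
  rw [lo_eq j hr.le, show 10 * j + r + 1 = 10 * j + (r + 1) by omega, lo_eq j (by omega)]
  exact T_lt (chk_lox r hr)

/-- the edges of the upper chain: first, inner, door, last -/
theorem hi_cases {k i : ℕ} (hk : 1 ≤ k) (hi' : i < 4 * k + 1) :
    (i = 0 ∧ hi k i = T 0 (V 0) ∧ hi k (i + 1) = T 0 (V 14)) ∨
    (∃ j r, j < k ∧ 12 ≤ r ∧ r ≤ 14 ∧ hi k i = T j (V r) ∧ hi k (i + 1) = T j (V (r - 1))) ∨
    (∃ j, j + 1 < k ∧ hi k i = T j (V 11) ∧ hi k (i + 1) = T (j + 1) (V 14)) ∨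
    (hi k i = T (k - 1) (V 11) ∧ hi k (i + 1) = T (k - 1) (V 10)) := by
  rcases Nat.eq_zero_or_pos i with h | h
  · subst h
    refine Or.inl ⟨rfl, hi_zero k, ?_⟩
    exact hi_eq (k := k) (j := 0) (r := 14) hk (by norm_num) le_rfl
  · right
    obtain ⟨j, s, hs, rfl⟩ : ∃ j s, s < 4 ∧ i = 4 * j + (s + 1) :=
      ⟨(i - 1) / 4, (i - 1) % 4, Nat.mod_lt _ (by norm_num), by omega⟩
    have hj : j < k := by omega
    have e1 : hi k (4 * j + (s + 1)) = T j (V (14 - s)) := by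
      have := hi_eq (k := k) (j := j) (r := 14 - s) hj (by omega) (by omega)
      rwa [show 15 - (14 - s) = s + 1 by omega] at this
    rcases Nat.lt_or_ge s 3 with h3 | h3
    · left
      refine ⟨j, 14 - s, hj, by omega, by omega, e1, ?_⟩
      have := hi_eq (k := k) (j := j) (r := 14 - s - 1) hj (by omega) (by omega)
      rwa [show 15 - (14 - s - 1) = s + 1 + 1 by omega, ← add_assoc] at this
    · right
      obtain rfl : s = 3 := by omega
      rcases Nat.lt_or_ge (j + 1) k with h4 | h4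
      · left
        refine ⟨j, h4, e1, ?_⟩
        have := hi_eq (k := k) (j := j + 1) (r := 14) h4 (by norm_num) le_rfl
        rwa [show 4 * (j + 1) + (15 - 14) = 4 * j + (3 + 1) + 1 by omega] at this
      · right
        obtain rfl : k = j + 1 := by omega
        refine ⟨e1, ?_⟩
        rw [show 4 * j + (3 + 1) + 1 = 4 * (j + 1) + 1 by omega, hi_last, V10_eq,
          Nat.add_sub_cancel]

theorem hi_x {k i : ℕ} (hk : 1 ≤ k) (hi' : i < 4 * k + 1) : (hi k i).1 < (hi k (i + 1)).1 := by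
  rcases hi_cases hk hi' with ⟨-, h1, h2⟩ | ⟨j, r, hj, hr1, hr2, h1, h2⟩ | ⟨j, hj, h1, h2⟩ |
    ⟨h1, h2⟩
  · rw [h1, h2]
    exact T_lt (by decide)
  · rw [h1, h2]
    exact T_lt (chk_hix r (by omega) (by omega))
  · rw [h1, h2, T_succ]
    exact T_lt (by decide)
  · rw [h1, h2]
    exact T_lt (by decide)

/-- a lower edge `a a'` strictly below an upper edge `b b'`, at a point of the overlap -/
theorem below_of_ok {a a' b b' z : ℝ × ℝ} (ha : a.1 < a'.1) (hb : b.1 < b'.1)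
    (h1 : a.1 ≤ z.1) (h2 : z.1 ≤ a'.1) (h3 : b.1 ≤ z.1) (h4 : z.1 ≤ b'.1)
    (hz : orient a a' z = 0)
    (hl : (b.1 ≤ a.1 ∧ orient b b' a < 0) ∨ (a.1 ≤ b.1 ∧ 0 < orient a a' b))
    (hr : (a'.1 ≤ b'.1 ∧ orient b b' a' < 0) ∨ (b'.1 ≤ a'.1 ∧ 0 < orient a a' b')) :
    orient b b' z < 0 := by
  have hA : 0 < a'.1 - a.1 := by linarith
  have hB : 0 < b'.1 - b.1 := by linarith
  -- the linear function `g x` with `g z.1 = (a'.1 - a.1) * orient b b' z`
  obtain ⟨c0, c1, hg⟩ : ∃ c0 c1 : ℝ, ∀ w : ℝ × ℝ, (a'.1 - a.1) * orient b b' w -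
      (b'.1 - b.1) * orient a a' w = c0 + c1 * w.1 := by
    refine ⟨-(a'.1 - a.1) * ((b'.1 - b.1) * b.2 - (b'.2 - b.2) * b.1) +
      (b'.1 - b.1) * ((a'.1 - a.1) * a.2 - (a'.2 - a.2) * a.1),
      -(a'.1 - a.1) * (b'.2 - b.2) + (b'.1 - b.1) * (a'.2 - a.2), fun w => ?_⟩
    unfold orient
    ring
  have e0 := hg z
  rw [hz, mul_zero, sub_zero] at e0
  have oa : orient a a' a = 0 := by unfold orient; ring
  have oa' : orient a a' a' = 0 := by unfold orient; ring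
  have ob : orient b b' b = 0 := by unfold orient; ring
  have ob' : orient b b' b' = 0 := by unfold orient; ring
  have ga := hg a
  have ga' := hg a'
  have gb := hg b
  have gb' := hg b'
  rw [oa, mul_zero, sub_zero] at ga
  rw [oa', mul_zero, sub_zero] at ga'
  rw [ob, mul_zero, zero_sub] at gb
  rw [ob', mul_zero, zero_sub] at gb'
  -- left end `s`, right end `s'`
  obtain ⟨s, hs1, hs2⟩ : ∃ s : ℝ, s ≤ z.1 ∧ c0 + c1 * s < 0 := by
    rcases hl with ⟨-, h⟩ | ⟨-, h⟩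
    · exact ⟨a.1, h1, by rw [← ga]; exact mul_neg_of_pos_of_neg hA h⟩
    · exact ⟨b.1, h3, by rw [← gb]; exact neg_neg_of_pos (mul_pos hB h)⟩
  obtain ⟨t, ht1, ht2⟩ : ∃ t : ℝ, z.1 ≤ t ∧ c0 + c1 * t < 0 := by
    rcases hr with ⟨-, h⟩ | ⟨-, h⟩
    · exact ⟨a'.1, h2, by rw [← ga']; exact mul_neg_of_pos_of_neg hA h⟩
    · exact ⟨b'.1, h4, by rw [← gb']; exact neg_neg_of_pos (mul_pos hB h)⟩
  have h5 : c0 + c1 * z.1 < 0 := by
    rcases le_total 0 c1 with h6 | h6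
    · nlinarith
    · nlinarith
  rw [← e0] at h5
  by_contra h7
  rw [not_lt] at h7
  have := mul_nonneg hA.le h7
  linarith

end Pool.Agent.H54.Fl
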