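import Pool.Agent.H54.Fl.Pk

/-!
The two chains bound a monotone polygon.
-/

namespace Pool.Agent.H54.Fl

open Set

theorem T_le' {j : ℕ} {p q : ℤ × ℤ} : (T j p).1 ≤ (T j q).1 ↔ p.1 ≤ q.1 := by
  rw [T_fst, T_fst, add_le_add_iff_right, Int.cast_le]

theorem below_T {j r : ℕ} (hr : r < 10) {b b' : ℤ × ℤ} {z : ℝ × ℝ} (hb : b.1 < b'.1)
    (h1 : (T j (V r)).1 ≤ z.1) (h2 : z.1 ≤ (T j (V (r + 1))).1) (h3 : (T j b).1 ≤ z.1)
    (h4 : z.1 ≤ (T j b').1) (hz : orient (T j (V r)) (T j (V (r + 1))) z = 0)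
    (hok : okp (V r) (V (r + 1)) b b' = true) : orient (T j b) (T j b') z < 0 := by
  unfold okp okl okr at hok
  simp only [Bool.or_eq_true, Bool.and_eq_true, decide_eq_true_eq] at hok
  have e1 : ¬ (V (r + 1)).1 < b.1 := by
    intro h
    have := T_lt (j := j) h
    linarith
  have e2 : ¬ b'.1 < (V r).1 := by
    intro h
    have := T_lt (j := j) h
    linarith
  rcases hok with (h | h) | ⟨hl, hr'⟩
  · exact absurd h e1
  · exact absurd h e2
  · refine below_of_ok (T_lt (chk_lox r hr)) (T_lt hb) h1 h2 h3 h4 hz ?_ ?_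
    · rw [T_le', T_le', orient_T, orient_T]
      rcases hl with ⟨a1, a2⟩ | ⟨a1, a2⟩
      · exact Or.inl ⟨a1, by exact_mod_cast a2⟩
      · exact Or.inr ⟨a1, by exact_mod_cast a2⟩
    · rw [T_le', T_le', orient_T, orient_T]
      rcases hr' with ⟨a1, a2⟩ | ⟨a1, a2⟩
      · exact Or.inl ⟨a1, by exact_mod_cast a2⟩
      · exact Or.inr ⟨a1, by exact_mod_cast a2⟩

theorem below_left {a a' b z : ℝ × ℝ} (ha : a.1 < a'.1) (h1 : a.1 < z.1)
    (hz : orient a a' z = 0) (h : orient a b a' < 0) : orient a b z < 0 := by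
  have e : (a'.1 - a.1) * orient a b z = (z.1 - a.1) * orient a b a' +
      (b.1 - a.1) * orient a a' z := by
    unfold orient
    ring
  rw [hz, mul_zero, add_zero] at e
  by_contra h2
  rw [not_lt] at h2
  have h3 : 0 ≤ (a'.1 - a.1) * orient a b z := mul_nonneg (by linarith) h2
  have h4 : (z.1 - a.1) * orient a b a' < 0 := mul_neg_of_pos_of_neg (by linarith) h
  linarith

theorem below_right {a b c z : ℝ × ℝ} (ha : a.1 < c.1) (h1 : z.1 < c.1)
    (hz : orient a c z = 0) (h : 0 < orient a c b) : orient b c z < 0 := by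
  have e : (c.1 - a.1) * orient b c z = -((c.1 - z.1) * orient a c b) +
      (c.1 - b.1) * orient a c z := by
    unfold orient
    ring
  rw [hz, mul_zero, add_zero] at e
  by_contra h2
  rw [not_lt] at h2
  have h3 : 0 ≤ (c.1 - a.1) * orient b c z := mul_nonneg (by linarith) h2
  have h4 : 0 < (c.1 - z.1) * orient a c b := mul_pos (by linarith) h
  linarith

theorem V_x : (∀ r < 11, 0 ≤ (V r).1 ∧ (V r).1 ≤ 2453) ∧
    ∀ r < 15, 11 ≤ r → 238 ≤ (V r).1 ∧ (V r).1 ≤ 2372 := by decide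

theorem cast_cases {j j' : ℕ} (h : j ≠ j') : (j : ℝ) + 1 ≤ j' ∨ (j' : ℝ) + 1 ≤ j := by
  rcases Nat.lt_or_gt_of_ne h with h | h
  · exact Or.inl (by exact_mod_cast h)
  · exact Or.inr (by exact_mod_cast h)

theorem lt_core {k : ℕ} (hk : 1 ≤ k) {z : ℝ × ℝ} (hz0 : 0 < z.1) (hz1 : z.1 < k * 2453)
    {j r i : ℕ} (hj : j < k) (hr : r < 10) (hi' : i < 4 * k + 1)
    (h1 : (T j (V r)).1 ≤ z.1) (h2 : z.1 ≤ (T j (V (r + 1))).1)
    (h3 : (hi k i).1 ≤ z.1) (h4 : z.1 ≤ (hi k (i + 1)).1)
    (hz : orient (T j (V r)) (T j (V (r + 1))) z = 0) :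
    orient (hi k i) (hi k (i + 1)) z < 0 := by
  have hx1 : (j : ℝ) * 2453 ≤ z.1 := by
    have : (0 : ℝ) ≤ (V r).1 := by exact_mod_cast (V_x.1 r (by omega)).1
    rw [T_fst] at h1
    linarith
  have hx2 : z.1 ≤ (j : ℝ) * 2453 + 2453 := by
    have : ((V (r + 1)).1 : ℝ) ≤ 2453 := by exact_mod_cast (V_x.1 (r + 1) (by omega)).2
    rw [T_fst] at h2
    linarith
  have hjk : (j : ℝ) + 1 ≤ k := by exact_mod_cast hj
  rcases hi_cases hk hi' with ⟨-, e1, e2⟩ | ⟨j', s, hj', hs1, hs2, e1, e2⟩ | ⟨j', hj', e1, e2⟩ |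
    ⟨e1, e2⟩
  · -- the first edge
    rw [e1, e2]
    rw [e1] at h3
    rw [e2] at h4
    have hj0 : j = 0 := by
      by_contra hne
      have : (1 : ℝ) ≤ j := by exact_mod_cast Nat.one_le_iff_ne_zero.2 hne
      rw [T_fst] at h4
      have e : ((V 14).1 : ℝ) = 238 := by norm_num [V]
      rw [e, Nat.cast_zero, zero_mul, add_zero] at h4
      linarith
    subst hj0
    rcases Nat.eq_zero_or_pos r with hr0 | hr0
    · subst hr0
      refine below_left (T_lt chk_pair_l00.1) ?_ hz ?_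
      · rw [T_fst]
        have e : ((V 0).1 : ℝ) = 0 := by norm_num [V]
        rw [e, Nat.cast_zero]
        linarith
      · rw [orient_T]
        exact_mod_cast chk_pair_l00.2.2
    · exact below_T hr (by decide) h1 h2 h3 h4 hz (chk_pair_l0 r hr hr0)
  · -- an inner edge
    rw [e1, e2]
    rw [e1] at h3
    rw [e2] at h4
    have hjj : j' = j := by
      by_contra hne
      have a1 : (238 : ℝ) ≤ (V s).1 := by exact_mod_cast (V_x.2 s (by omega) (by omega)).1
      have a2 : ((V (s - 1)).1 : ℝ) ≤ 2372 := by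
        exact_mod_cast (V_x.2 (s - 1) (by omega) (by omega)).2
      rw [T_fst] at h3 h4
      rcases cast_cases hne with h | h
      · linarith
      · linarith
    subst hjj
    exact below_T hr (chk_hix s (by omega) (by omega)) h1 h2 h3 h4 hz (chk_pair r hr s (by omega)
      (by omega))
  · -- a door edge
    rw [e1, e2]
    rw [e1] at h3
    rw [e2] at h4
    have e11 : ((V 11).1 : ℝ) = 2372 := by norm_num [V]
    have e14 : ((V 14).1 : ℝ) = 238 := by norm_num [V]
    have h3' := h3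
    have h4' := h4
    rw [T_fst, e11] at h3'
    rw [T_fst, e14, Nat.cast_add, Nat.cast_one] at h4'
    have hjj : j = j' ∨ j = j' + 1 := by
      by_contra hne
      rw [not_or] at hne
      rcases cast_cases hne.1 with h | h
      · linarith
      · rcases cast_cases hne.2 with h5 | h5
        · push_cast at h5
          have : j < j' + 1 := by exact_mod_cast (by linarith : (j : ℝ) < (j' : ℝ) + 1)
          have h6 : j' + 1 ≤ j := by exact_mod_cast h
          omega
        · push_cast at h5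
          linarith
    rcases hjj with rfl | rfl
    · rw [T_succ] at h4 ⊢
      exact below_T hr (by decide) h1 h2 h3 h4 hz (chk_pair_r r hr)
    · rw [← T_un j' (V 11)] at h3 ⊢
      exact below_T hr (by decide) h1 h2 h3 h4 hz (chk_pair_l r hr)
  · -- the last edge
    rw [e1, e2]
    rw [e1] at h3
    rw [e2] at h4
    have e11 : ((V 11).1 : ℝ) = 2372 := by norm_num [V]
    have hjj : j = k - 1 := by
      by_contra hne
      have h3' := h3
      rw [T_fst, e11, Nat.cast_sub hk, Nat.cast_one] at h3'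
      have h5 : j + 2 ≤ k := by omega
      have h6 : (j : ℝ) + 2 ≤ k := by exact_mod_cast h5
      linarith
    subst hjj
    rcases Nat.lt_or_ge r 9 with h9 | h9
    · exact below_T hr (by decide) h1 h2 h3 h4 hz (chk_pair_r0 r h9)
    · obtain rfl : r = 9 := by omega
      refine below_right (T_lt (chk_lox 9 (by norm_num))) ?_ hz ?_
      · have e10 : ((V 10).1 : ℝ) = 2453 := by norm_num [V]
        rw [T_fst, e10, Nat.cast_sub hk, Nat.cast_one]
        linarith
      · rw [orient_T]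
        exact_mod_cast chk_pair_r00.2.2

theorem lo_zero : lo 0 = T 0 (V 0) := lo_eq 0 (Nat.zero_le _)

theorem mono {k : ℕ} (hk : 1 ≤ k) : Mono (10 * k) (4 * k + 1) lo (hi k) where
  hm := by omega
  hl := by omega
  px := fun i _ => lo_x i
  qx := fun i hi' => hi_x hk hi'
  h0 := by rw [hi_zero, lo_zero]
  h1 := by rw [hi_last, lo_last]
  lt := by
    intro x hx0 hx1
    have px : ∀ i < 10 * k, (lo i).1 < (lo (i + 1)).1 := fun i _ => lo_x i
    have qx : ∀ i < 4 * k + 1, (hi k i).1 < (hi k (i + 1)).1 := fun i hi' => hi_x hk hi'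
    have e0 : ((V 0).1 : ℝ) = 0 := by norm_num [V]
    have hx0' : 0 < x := by
      rw [lo_zero, T_fst, e0, Nat.cast_zero] at hx0
      linarith
    have hx1' : x < k * 2453 := by
      rw [lo_last, T_fst, e0] at hx1
      linarith
    obtain ⟨i, hi', h1, h2⟩ := exists_edge px hx0.le hx1.le (by omega)
    have g0 : (hi k 0).1 ≤ x := by
      rw [hi_zero, ← lo_zero]
      exact hx0.le
    have g1 : x ≤ (hi k (4 * k + 1)).1 := by
      rw [hi_last, ← lo_last]
      exact hx1.le
    obtain ⟨i', hi'', h3, h4⟩ := exists_edge qx g0 g1 (by omega)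
    obtain ⟨j, r, hr, rfl⟩ : ∃ j r, r < 10 ∧ i = 10 * j + r :=
      ⟨i / 10, i % 10, Nat.mod_lt _ (by norm_num), by omega⟩
    by_contra hne
    rw [not_lt] at hne
    set z : ℝ × ℝ := (x, pl (10 * k) lo x) with hz
    have a1 := (le_pl_iff px hi' (z := z) h1 h2).1 le_rfl
    have a2 := (pl_le_iff px hi' (z := z) h1 h2).1 le_rfl
    have a3 := (pl_le_iff qx hi'' (z := z) h3 h4).1 hne
    have a4 : orient (lo (10 * j + r)) (lo (10 * j + r + 1)) z = 0 := le_antisymm a1 a2
    rw [lo_eq j hr.le] at h1 a4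
    rw [add_assoc, lo_eq j (by omega)] at h2 a4
    have := lt_core hk (z := z) hx0' hx1' (j := j) (r := r) (i := i') (by omega) hr hi'' h1 h2 h3
      h4 a4
    linarith

end Pool.Agent.H54.Fl
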