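import Pool.Agent.H54.Fl.Mono

/-!
The `x`-monotone polygon with lower chain `p 0, …, p m` and upper chain `q 0, …, q l`.
-/

namespace Pool.Agent.H54.Fl

open Set Filter Topology

/-- lower chain `p 0, …, p m`, upper chain `q 0, …, q l` -/
structure Mono (m l : ℕ) (p q : ℕ → ℝ × ℝ) : Prop where
  hm : 2 ≤ m
  hl : 2 ≤ l
  px : ∀ i < m, (p i).1 < (p (i + 1)).1
  qx : ∀ i < l, (q i).1 < (q (i + 1)).1
  h0 : p 0 = q 0
  h1 : p m = q l
  lt : ∀ x, (p 0).1 < x → x < (p m).1 → pl m p x < pl l q x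

/-- the vertices in cyclic order -/
def vert (m l : ℕ) (p q : ℕ → ℝ × ℝ) (i : ℕ) : ℝ × ℝ := if i ≤ m then p i else q (m + l - i)

section

variable {m l : ℕ} {p q : ℕ → ℝ × ℝ}

theorem vert_lo {i : ℕ} (hi : i ≤ m) : vert m l p q i = p i := if_pos hi

variable (h : Mono m l p q)

include h

theorem Mono.vert_hi {i : ℕ} (hi : m ≤ i) : vert m l p q i = q (m + l - i) := by
  unfold vert
  split_ifs with h1
  · obtain rfl : i = m := le_antisymm h1 hi
    rw [Nat.add_sub_cancel_left]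
    exact h.h1
  · rfl

theorem Mono.edge_lo {i : ℕ} (hi : i < m) :
    edge (m + l) (vert m l p q) i = segment ℝ (p i) (p (i + 1)) := by
  have := h.hl
  unfold edge
  rw [Nat.mod_eq_of_lt (by omega), vert_lo hi.le, vert_lo (by omega)]

theorem Mono.edge_hi {i : ℕ} (h1 : m ≤ i) (h2 : i < m + l) :
    edge (m + l) (vert m l p q) i = segment ℝ (q (m + l - 1 - i)) (q (m + l - 1 - i + 1)) := by
  have := h.hl
  unfold edge
  rw [h.vert_hi h1, segment_symm, show m + l - 1 - i + 1 = m + l - i by omega]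
  rcases Nat.lt_or_ge (i + 1) (m + l) with h3 | h3
  · rw [Nat.mod_eq_of_lt h3, h.vert_hi (by omega), show m + l - 1 - i = m + l - (i + 1) by omega]
  · obtain rfl : i = m + l - 1 := by omega
    rw [show m + l - 1 + 1 = m + l by omega, Nat.mod_self, vert_lo (by omega), h.h0,
      show m + l - 1 - (m + l - 1) = 0 by omega]

theorem Mono.mem_lo {i : ℕ} (hi : i < m) {z : ℝ × ℝ} :
    z ∈ edge (m + l) (vert m l p q) i ↔ ((p i).1 ≤ z.1 ∧ z.1 ≤ (p (i + 1)).1) ∧
      z.2 = pl m p z.1 := by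
  rw [h.edge_lo hi, mem_segment_chain h.px hi]

theorem Mono.mem_hi {i : ℕ} (h1 : m ≤ i) (h2 : i < m + l) {z : ℝ × ℝ} :
    z ∈ edge (m + l) (vert m l p q) i ↔
      ((q (m + l - 1 - i)).1 ≤ z.1 ∧ z.1 ≤ (q (m + l - 1 - i + 1)).1) ∧ z.2 = pl l q z.1 := by
  rw [h.edge_hi h1 h2, mem_segment_chain h.qx (by omega)]

theorem Mono.x0_lt : (p 0).1 < (p m).1 := chain_lt h.px (by have := h.hm; omega) le_rfl

theorem Mono.le {x : ℝ} (h1 : (p 0).1 ≤ x) (h2 : x ≤ (p m).1) : pl m p x ≤ pl l q x := by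
  rcases h1.eq_or_lt with h3 | h3
  · rw [← h3, pl_vertex h.px (Nat.zero_le _), h.h0, pl_vertex h.qx (Nat.zero_le _)]
  · rcases h2.eq_or_lt with h4 | h4
    · rw [h4, pl_vertex h.px le_rfl, h.h1, pl_vertex h.qx le_rfl]
    · exact (h.lt x h3 h4).le

theorem Mono.mem_curve {z : ℝ × ℝ} : z ∈ curve (m + l) (vert m l p q) ↔
    ((p 0).1 ≤ z.1 ∧ z.1 ≤ (p m).1) ∧ (z.2 = pl m p z.1 ∨ z.2 = pl l q z.1) := by
  have hm := h.hm
  have hl := h.hl
  constructor
  · rintro ⟨i, hi, hz⟩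
    rcases Nat.lt_or_ge i m with h1 | h1
    · rw [h.mem_lo h1] at hz
      exact ⟨⟨(chain_le h.px (Nat.zero_le _) h1.le).trans hz.1.1,
        hz.1.2.trans (chain_le h.px h1 le_rfl)⟩, Or.inl hz.2⟩
    · rw [h.mem_hi h1 hi] at hz
      refine ⟨⟨?_, ?_⟩, Or.inr hz.2⟩
      · rw [h.h0]
        exact (chain_le h.qx (Nat.zero_le _) (by omega)).trans hz.1.1
      · rw [h.h1]
        exact hz.1.2.trans (chain_le h.qx (by omega) le_rfl)
  · rintro ⟨⟨h1, h2⟩, h3 | h3⟩
    · obtain ⟨i, hi, h4⟩ := exists_edge h.px h1 h2 (by omega)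
      exact ⟨i, by omega, (h.mem_lo hi).2 ⟨h4, h3⟩⟩
    · rw [h.h0] at h1
      rw [h.h1] at h2
      obtain ⟨i, hi, h4⟩ := exists_edge h.qx h1 h2 (by omega)
      refine ⟨m + l - 1 - i, by omega, (h.mem_hi (by omega) (by omega)).2 ?_⟩
      rw [show m + l - 1 - (m + l - 1 - i) = i by omega]
      exact ⟨h4, h3⟩

omit h in
theorem not_isBounded_vertical {x : ℝ} {s : Set ℝ} (hs : ∀ C : ℝ, ∃ y ∈ s, C < |y|) :
    ¬ Bornology.IsBounded (({x} : Set ℝ) ×ˢ s) := by
  intro hb
  obtain ⟨C, hC⟩ := isBounded_iff_forall_norm_le.1 hb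
  obtain ⟨y, hy, h1⟩ := hs C
  have h2 := hC (x, y) ⟨rfl, hy⟩
  have h3 : |y| ≤ ‖((x, y) : ℝ × ℝ)‖ := by
    rw [← Real.norm_eq_abs]
    exact norm_snd_le ((x, y) : ℝ × ℝ)
  linarith

/-- the region of a monotone polygon -/
theorem Mono.mem_region {z : ℝ × ℝ} : z ∈ region (m + l) (vert m l p q) ↔
    ((p 0).1 ≤ z.1 ∧ z.1 ≤ (p m).1) ∧ pl m p z.1 ≤ z.2 ∧ z.2 ≤ pl l q z.1 := by
  constructor
  · intro hz
    have key : ∀ s : Set ℝ, IsConnected s → z.2 ∈ s → (∀ C : ℝ, ∃ y ∈ s, C < |y|) →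
        ∃ y ∈ s, (z.1, y) ∈ curve (m + l) (vert m l p q) := by
      intro s hs h1 h2
      by_contra hne
      refine not_isBounded_vertical (x := z.1) h2 (hz (({z.1} : Set ℝ) ×ˢ s)
        (isConnected_singleton.prod hs) ⟨rfl, h1⟩ ?_)
      rw [Set.disjoint_left]
      rintro ⟨a, b⟩ ⟨h3, h4⟩ h5
      have h6 : a = z.1 := h3
      subst h6
      exact hne ⟨b, h4, h5⟩
    have h1 : (p 0).1 ≤ z.1 ∧ z.1 ≤ (p m).1 := by
      obtain ⟨y, -, hy⟩ := key univ isConnected_univ (mem_univ _)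
        (fun C => ⟨|C| + 1, mem_univ _, by
          rw [abs_of_nonneg (by positivity)]
          linarith [le_abs_self C]⟩)
      exact (h.mem_curve.1 hy).1
    have h2 := h.le h1.1 h1.2
    refine ⟨h1, ?_, ?_⟩
    · by_contra h3
      rw [not_le] at h3
      obtain ⟨y, hy1, hy2⟩ := key (Iic z.2) isConnected_Iic (mem_Iic.2 le_rfl)
        (fun C => ⟨min z.2 0 - |C| - 1, by
          rw [mem_Iic]
          have := min_le_left z.2 0
          have := abs_nonneg C
          linarith, by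
          have h4 := min_le_right z.2 0
          have h5 := abs_nonneg C
          rw [abs_of_nonpos (by linarith)]
          linarith [le_abs_self C]⟩)
      rw [mem_Iic] at hy1
      rcases (h.mem_curve.1 hy2).2 with h4 | h4 <;> simp only at h4 <;> linarith
    · by_contra h3
      rw [not_le] at h3
      obtain ⟨y, hy1, hy2⟩ := key (Ici z.2) isConnected_Ici (mem_Ici.2 le_rfl)
        (fun C => ⟨max z.2 0 + |C| + 1, by
          rw [mem_Ici]
          have := le_max_left z.2 0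
          have := abs_nonneg C
          linarith, by
          have h4 := le_max_right z.2 0
          have h5 := abs_nonneg C
          rw [abs_of_nonneg (by linarith)]
          linarith [le_abs_self C]⟩)
      rw [mem_Ici] at hy1
      rcases (h.mem_curve.1 hy2).2 with h4 | h4 <;> simp only at h4 <;> linarith
  · rintro ⟨⟨h1, h2⟩, h3, h4⟩ S hS hzS hdisj
    have hnc : z ∉ curve (m + l) (vert m l p q) := fun hc => Set.disjoint_left.1 hdisj hzS hc
    rw [h.mem_curve, not_and, not_or] at hnc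
    obtain ⟨h5, h6⟩ := hnc ⟨h1, h2⟩
    set O : Set (ℝ × ℝ) := {w | ((p 0).1 < w.1 ∧ w.1 < (p m).1) ∧ pl m p w.1 < w.2 ∧
      w.2 < pl l q w.1} with hO
    set C : Set (ℝ × ℝ) := {w | ((p 0).1 ≤ w.1 ∧ w.1 ≤ (p m).1) ∧ pl m p w.1 ≤ w.2 ∧
      w.2 ≤ pl l q w.1} with hC
    have cp : Continuous (pl m p) := continuous_pl m p
    have cq : Continuous (pl l q) := continuous_pl l q
    have hOo : IsOpen O := by
      refine ((isOpen_lt continuous_const continuous_fst).inter
        (isOpen_lt continuous_fst continuous_const)).inter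
        ((isOpen_lt (cp.comp continuous_fst) continuous_snd).inter
        (isOpen_lt continuous_snd (cq.comp continuous_fst)))
    have hCc : IsClosed C := by
      refine ((isClosed_le continuous_const continuous_fst).inter
        (isClosed_le continuous_fst continuous_const)).inter
        ((isClosed_le (cp.comp continuous_fst) continuous_snd).inter
        (isClosed_le continuous_snd (cq.comp continuous_fst)))
    have hOC : ∀ w ∈ C, w ∉ curve (m + l) (vert m l p q) → w ∈ O := by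
      rintro w ⟨⟨a1, a2⟩, a3, a4⟩ hw
      rw [h.mem_curve, not_and, not_or] at hw
      obtain ⟨b1, b2⟩ := hw ⟨a1, a2⟩
      have a5 : pl m p w.1 < w.2 := lt_of_le_of_ne a3 (Ne.symm b1)
      have a6 : w.2 < pl l q w.1 := lt_of_le_of_ne a4 b2
      refine ⟨⟨lt_of_le_of_ne a1 ?_, lt_of_le_of_ne a2 ?_⟩, a5, a6⟩
      · intro h7
        rw [← h7, pl_vertex h.px (Nat.zero_le _)] at a5
        rw [← h7, h.h0, pl_vertex h.qx (Nat.zero_le _), ← h.h0] at a6
        linarith
      · intro h7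
        rw [h7, pl_vertex h.px le_rfl] at a5
        rw [h7, h.h1, pl_vertex h.qx le_rfl, ← h.h1] at a6
        linarith
    have hSO : S ⊆ O := by
      refine IsPreconnected.subset_left_of_subset_union hOo hCc.isOpen_compl ?_ ?_ ?_
        hS.isPreconnected
      · rw [Set.disjoint_left]
        rintro w ⟨⟨a1, a2⟩, a3, a4⟩ hw
        exact hw ⟨⟨a1.le, a2.le⟩, a3.le, a4.le⟩
      · intro w hw
        by_cases hwC : w ∈ C
        · exact Or.inl (hOC w hwC fun hc => Set.disjoint_left.1 hdisj hw hc)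
        · exact Or.inr hwC
      · refine ⟨z, hzS, hOC z ⟨⟨h1, h2⟩, h3, h4⟩ ?_⟩
        exact fun hc => Set.disjoint_left.1 hdisj hzS hc
    refine Bornology.IsBounded.subset ?_ hSO
    -- `O` is bounded
    obtain ⟨A, hA⟩ := (isCompact_Icc (a := (p 0).1) (b := (p m).1)).exists_bound_of_continuousOn
      cp.continuousOn
    obtain ⟨B, hB⟩ := (isCompact_Icc (a := (p 0).1) (b := (p m).1)).exists_bound_of_continuousOn
      cq.continuousOn
    have : O ⊆ Icc (p 0).1 (p m).1 ×ˢ Icc (-A) B := by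
      rintro w ⟨⟨a1, a2⟩, a3, a4⟩
      have b1 := hA w.1 ⟨a1.le, a2.le⟩
      have b2 := hB w.1 ⟨a1.le, a2.le⟩
      rw [Real.norm_eq_abs, abs_le] at b1 b2
      exact ⟨⟨a1.le, a2.le⟩, ⟨by linarith, by linarith⟩⟩
    exact ((Metric.isBounded_Icc _ _).prod (Metric.isBounded_Icc _ _)).subset this

end

end Pool.Agent.H54.Fl
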