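import Pool.Agent.H54.Fl.Poly

/-!
Monotone polygons are simple; visibility and inward-facing half-planes.
-/

namespace Pool.Agent.H54.Fl

open Set Filter Topology

section

variable {m l : ℕ} {p q : ℕ → ℝ × ℝ} (h : Mono m l p q)

include h

theorem Mono.adjacent {i : ℕ} (hi : i < m + l) :
    edge (m + l) (vert m l p q) i ∩ edge (m + l) (vert m l p q) ((i + 1) % (m + l)) =
      {vert m l p q ((i + 1) % (m + l))} := by
  have hm := h.hm
  have hl := h.hl
  refine Subset.antisymm ?_ ?_
  · rintro z ⟨h1, h2⟩
    rw [mem_singleton_iff]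
    rcases Nat.lt_or_ge (i + 1) (m + l) with h3 | h3
    · rw [Nat.mod_eq_of_lt h3] at h2 ⊢
      rcases Nat.lt_or_ge (i + 1) m with h4 | h4
      · rw [h.mem_lo (by omega)] at h1
        rw [h.mem_lo h4] at h2
        rw [vert_lo h4.le]
        have h5 : z.1 = (p (i + 1)).1 := le_antisymm h1.1.2 h2.1.1
        refine Prod.ext h5 ?_
        rw [h1.2, h5, pl_vertex h.px h4.le]
      · rcases Nat.lt_or_ge i m with h5 | h5
        · -- right corner
          obtain rfl : m = i + 1 := by omega
          rw [h.mem_lo h5] at h1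
          rw [h.mem_hi le_rfl (by omega)] at h2
          rw [vert_lo le_rfl]
          have h6 : z.1 = (p (i + 1)).1 := by
            refine le_antisymm h1.1.2 ?_
            by_contra h7
            rw [not_le] at h7
            have h8 : (p 0).1 < z.1 := by
              refine lt_of_lt_of_le ?_ h1.1.1
              exact chain_lt h.px (by omega) (by omega)
            have := h.lt z.1 h8 h7
            rw [← h1.2, ← h2.2] at this
            exact lt_irrefl _ this
          refine Prod.ext h6 ?_
          rw [h1.2, h6, pl_vertex h.px le_rfl]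
        · rw [h.mem_hi h5 hi] at h1
          rw [h.mem_hi (by omega) h3] at h2
          rw [h.vert_hi (by omega)]
          have h5' : z.1 = (q (m + l - (i + 1))).1 := by
            refine le_antisymm ?_ ?_
            · have := h2.1.2
              rwa [show m + l - 1 - (i + 1) + 1 = m + l - (i + 1) by omega] at this
            · have := h1.1.1
              rwa [show m + l - 1 - i = m + l - (i + 1) by omega] at this
          refine Prod.ext h5' ?_
          rw [h1.2, h5', pl_vertex h.qx (by omega)]
    · -- left corner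
      obtain rfl : i = m + l - 1 := by omega
      rw [show m + l - 1 + 1 = m + l by omega, Nat.mod_self] at h2 ⊢
      rw [h.mem_hi (by omega) hi] at h1
      rw [h.mem_lo (by omega)] at h2
      rw [vert_lo (Nat.zero_le _)]
      rw [show m + l - 1 - (m + l - 1) = 0 by omega] at h1
      have h6 : z.1 = (p 0).1 := by
        refine le_antisymm ?_ h2.1.1
        by_contra h7
        rw [not_le] at h7
        have h8 : z.1 < (p m).1 := by
          refine lt_of_le_of_lt h2.1.2 ?_
          exact chain_lt h.px (by omega) (by omega)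
        have := h.lt z.1 h7 h8
        rw [← h1.2, ← h2.2] at this
        exact lt_irrefl _ this
      refine Prod.ext h6 ?_
      rw [h2.2, h6, pl_vertex h.px (Nat.zero_le _)]
  · rw [singleton_subset_iff]
    refine ⟨?_, ?_⟩
    · exact right_mem_segment ℝ _ _
    · exact left_mem_segment ℝ _ _

/-- lower edges against upper edges -/
theorem Mono.lo_hi {i j : ℕ} (hi : i < m) (h1 : m ≤ j) (h2 : j < m + l) {z : ℝ × ℝ}
    (hz1 : z ∈ edge (m + l) (vert m l p q) i) (hz2 : z ∈ edge (m + l) (vert m l p q) j) :
    i + 1 = j ∨ (j + 1) % (m + l) = i := by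
  have hm := h.hm
  have hl := h.hl
  rw [h.mem_lo hi] at hz1
  rw [h.mem_hi h1 h2] at hz2
  have h3 : (p 0).1 ≤ z.1 := (chain_le h.px (Nat.zero_le _) hi.le).trans hz1.1.1
  have h4 : z.1 ≤ (p m).1 := hz1.1.2.trans (chain_le h.px hi le_rfl)
  rcases h3.eq_or_lt with h5 | h5
  · right
    have hi0 : i = 0 := by
      by_contra hne
      have : (p 0).1 < (p i).1 := chain_lt h.px (by omega) hi.le
      linarith [hz1.1.1]
    have hj : m + l - 1 - j = 0 := by
      by_contra hne
      have : (q 0).1 < (q (m + l - 1 - j)).1 := chain_lt h.qx (by omega) (by omega)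
      rw [← h.h0] at this
      linarith [hz2.1.1]
    rw [hi0, show j + 1 = m + l by omega, Nat.mod_self]
  · rcases h4.eq_or_lt with h6 | h6
    · left
      have hi0 : i + 1 = m := by
        by_contra hne
        have : (p (i + 1)).1 < (p m).1 := chain_lt h.px (by omega) le_rfl
        linarith [hz1.1.2]
      have hj : m + l - 1 - j + 1 = l := by
        by_contra hne
        have : (q (m + l - 1 - j + 1)).1 < (q l).1 := chain_lt h.qx (by omega) le_rfl
        rw [← h.h1] at this
        linarith [hz2.1.2]
      omega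
    · have := h.lt z.1 h5 h6
      rw [← hz1.2, ← hz2.2] at this
      exact absurd this (lt_irrefl _)

theorem Mono.nonadjacent {i j : ℕ} (hi : i < m + l) (hj : j < m + l) (hij : i ≠ j)
    (h1 : (i + 1) % (m + l) ≠ j) (h2 : (j + 1) % (m + l) ≠ i) :
    Disjoint (edge (m + l) (vert m l p q) i) (edge (m + l) (vert m l p q) j) := by
  have hm := h.hm
  have hl := h.hl
  wlog hlt : i < j generalizing i j
  · exact (this hj hi hij.symm h2 h1 (by omega)).symm
  rw [Set.disjoint_left]
  intro z hz1 hz2
  rw [Nat.mod_eq_of_lt (by omega)] at h1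
  rcases Nat.lt_or_ge j m with h3 | h3
  · rw [h.mem_lo (by omega)] at hz1
    rw [h.mem_lo h3] at hz2
    have : (p (i + 1)).1 < (p j).1 := chain_lt h.px (by omega) h3.le
    linarith [hz1.1.2, hz2.1.1]
  · rcases Nat.lt_or_ge i m with h4 | h4
    · rcases h.lo_hi h4 h3 hj hz1 hz2 with h5 | h5
      · exact h1 h5
      · exact h2 h5
    · rw [h.mem_hi h4 hi] at hz1
      rw [h.mem_hi h3 hj] at hz2
      have : (q (m + l - 1 - j + 1)).1 < (q (m + l - 1 - i)).1 :=
        chain_lt h.qx (by omega) (by omega)
      linarith [hz1.1.1, hz2.1.2]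

theorem Mono.isSimplePolygon (hp : ∀ i, i + 2 ≤ m → orient (p i) (p (i + 1)) (p (i + 2)) ≠ 0)
    (hq : ∀ i, i + 2 ≤ l → orient (q i) (q (i + 1)) (q (i + 2)) ≠ 0)
    (hr : orient (p (m - 1)) (p m) (q (l - 1)) ≠ 0) (hl' : orient (q 1) (p 0) (p 1) ≠ 0) :
    IsSimplePolygon (m + l) (vert m l p q) where
  three_le := by have := h.hm; have := h.hl; omega
  adjacent := fun i hi => h.adjacent hi
  nonadjacent := fun i hi j hj h1 h2 h3 => h.nonadjacent hi hj h1 h2 h3
  genuine := by
    intro i hi
    have hm := h.hm
    have hl := h.hl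
    have hrev : ∀ a b c : ℝ × ℝ, orient a b c ≠ 0 → orient c b a ≠ 0 := by
      intro a b c h1 h2
      apply h1
      unfold orient at h2 ⊢
      linarith
    rcases Nat.lt_or_ge (i + 1) m with h1 | h1
    · rw [Nat.mod_eq_of_lt (by omega), Nat.mod_eq_of_lt (by omega), vert_lo (by omega),
        vert_lo (by omega), vert_lo (by omega)]
      exact hp i (by omega)
    · rcases Nat.lt_or_ge i m with h2 | h2
      · obtain rfl : i = m - 1 := by omega
        rw [Nat.mod_eq_of_lt (by omega), Nat.mod_eq_of_lt (by omega), vert_lo (by omega),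
          show m - 1 + 1 = m by omega, vert_lo le_rfl, h.vert_hi (by omega),
          show m + l - (m - 1 + 2) = l - 1 by omega]
        exact hr
      · rcases Nat.lt_or_ge (i + 2) (m + l) with h3 | h3
        · rw [Nat.mod_eq_of_lt (by omega), Nat.mod_eq_of_lt (by omega), h.vert_hi h2,
            h.vert_hi (by omega), h.vert_hi (by omega)]
          apply hrev
          have := hq (m + l - (i + 2)) (by omega)
          rwa [show m + l - (i + 2) + 1 = m + l - (i + 1) by omega,
            show m + l - (i + 2) + 2 = m + l - i by omega] at this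
        · rcases Nat.lt_or_ge (i + 1) (m + l) with h4 | h4
          · obtain rfl : i = m + l - 2 := by omega
            rw [Nat.mod_eq_of_lt (by omega), show m + l - 2 + 2 = m + l by omega, Nat.mod_self,
              h.vert_hi h2, h.vert_hi (by omega), vert_lo (Nat.zero_le _), h.h0]
            apply hrev
            have := hq 0 (by omega)
            rwa [show m + l - (m + l - 2 + 1) = 1 by omega,
              show m + l - (m + l - 2) = 2 by omega]
          · obtain rfl : i = m + l - 1 := by omega
            rw [show m + l - 1 + 1 = m + l by omega, show m + l - 1 + 2 = m + l + 1 by omega,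
              Nat.mod_self, Nat.add_mod_left, Nat.mod_eq_of_lt (by omega), h.vert_hi (by omega),
              vert_lo (Nat.zero_le _), vert_lo (by omega),
              show m + l - (m + l - 1) = 1 by omega]
            exact hl'

/-- a segment in the region passes above the lower vertices -/
theorem Mono.orient_lo {a b : ℝ × ℝ} (hab : a.1 < b.1)
    (hs : segment ℝ a b ⊆ region (m + l) (vert m l p q)) {i : ℕ} (hi : i ≤ m)
    (h1 : a.1 ≤ (p i).1) (h2 : (p i).1 ≤ b.1) : orient a b (p i) ≤ 0 := by
  set y : ℝ := a.2 + (b.2 - a.2) / (b.1 - a.1) * ((p i).1 - a.1) with hy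
  have h0 : b.1 - a.1 ≠ 0 := by linarith
  have hz : ((p i).1, y) ∈ segment ℝ a b := by
    rw [mem_segment_iff hab]
    refine ⟨⟨h1, h2⟩, ?_⟩
    unfold orient
    simp only [hy]
    field_simp
    ring
  have h3 := (h.mem_region.1 (hs hz)).2.1
  simp only at h3
  rw [pl_vertex h.px hi] at h3
  unfold orient
  have h4 : (b.1 - a.1) * (y - a.2) = (b.2 - a.2) * ((p i).1 - a.1) := by
    rw [hy]
    field_simp
    ring
  nlinarith

/-- a segment in the region passes below the upper vertices -/
theorem Mono.orient_hi {a b : ℝ × ℝ} (hab : a.1 < b.1)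
    (hs : segment ℝ a b ⊆ region (m + l) (vert m l p q)) {i : ℕ} (hi : i ≤ l)
    (h1 : a.1 ≤ (q i).1) (h2 : (q i).1 ≤ b.1) : 0 ≤ orient a b (q i) := by
  set y : ℝ := a.2 + (b.2 - a.2) / (b.1 - a.1) * ((q i).1 - a.1) with hy
  have h0 : b.1 - a.1 ≠ 0 := by linarith
  have hz : ((q i).1, y) ∈ segment ℝ a b := by
    rw [mem_segment_iff hab]
    refine ⟨⟨h1, h2⟩, ?_⟩
    unfold orient
    simp only [hy]
    field_simp
    ring
  have h3 := (h.mem_region.1 (hs hz)).2.2
  simp only at h3
  rw [pl_vertex h.qx hi] at h3
  unfold orient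
  have h4 : (b.1 - a.1) * (y - a.2) = (b.2 - a.2) * ((q i).1 - a.1) := by
    rw [hy]
    field_simp
    ring
  nlinarith

end

end Pool.Agent.H54.Fl
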