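import Pool.Agent.H54.Fl.Pk2

/-!
Simplicity, witnesses, visibility.
-/

namespace Pool.Agent.H54.Fl

open Set

/-- the vertices of the polygon in cyclic order -/
noncomputable def vk (k : ℕ) : ℕ → ℝ × ℝ := vert (10 * k) (4 * k + 1) lo (hi k)

theorem cast_ne {a b c : ℤ × ℤ} {j : ℕ} (h : oz a b c ≠ 0) : orient (T j a) (T j b) (T j c) ≠ 0 := by
  rw [orient_T]
  exact_mod_cast h

theorem isSimple {k : ℕ} (hk : 1 ≤ k) : IsSimplePolygon (10 * k + (4 * k + 1)) (vk k) := by
  refine (mono hk).isSimplePolygon ?_ ?_ ?_ ?_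
  · intro i hi'
    obtain ⟨j, r, hr, rfl⟩ : ∃ j r, r < 10 ∧ i = 10 * j + r :=
      ⟨i / 10, i % 10, Nat.mod_lt _ (by norm_num), by omega⟩
    rw [add_assoc, add_assoc, lo_eq j hr.le, lo_eq j (by omega)]
    rcases Nat.lt_or_ge r 9 with h9 | h9
    · rw [lo_eq j (by omega)]
      apply cast_ne
      by_cases h4 : r = 4
      · subst h4
        exact chk_lo_orient4.ne'
      · exact (chk_lo_orient r h9 h4).ne
    · obtain rfl : r = 9 := by omega
      rw [show 10 * j + (9 + 2) = 10 * (j + 1) + 1 by ring, lo_eq (j + 1) (by norm_num), T_succ]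
      exact cast_ne chk_door_orient.ne
  · intro i hi'
    rcases Nat.eq_zero_or_pos i with h | h
    · subst h
      rw [hi_zero, hi_eq (k := k) (j := 0) (r := 14) hk (by norm_num) (by norm_num),
        hi_eq (k := k) (j := 0) (r := 13) hk (by norm_num) (by norm_num)]
      exact cast_ne chk_hi_orient_l0.ne'
    · obtain ⟨j, s, hs, rfl⟩ : ∃ j s, s < 4 ∧ i = 4 * j + (s + 1) :=
        ⟨(i - 1) / 4, (i - 1) % 4, Nat.mod_lt _ (by norm_num), by omega⟩
      have hj : j < k := by omega
      rcases Nat.lt_or_ge s 2 with h2 | h2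
      · rw [show 4 * j + (s + 1) = 4 * j + (15 - (14 - s)) by omega,
          show 4 * j + (15 - (14 - s)) + 1 = 4 * j + (15 - (14 - s - 1)) by omega,
          show 4 * j + (15 - (14 - s)) + 2 = 4 * j + (15 - (14 - s - 2)) by omega,
          hi_eq hj (by omega) (by omega), hi_eq hj (by omega) (by omega),
          hi_eq hj (by omega) (by omega)]
        exact cast_ne (chk_hi_orient (14 - s) (by omega) (by omega)).ne'
      · rcases Nat.lt_or_ge s 3 with h3 | h3
        · obtain rfl : s = 2 := by omega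
          rw [show 4 * j + (2 + 1) + 1 = 4 * j + (15 - 11) by omega,
            show 4 * j + (2 + 1) = 4 * j + (15 - 12) by omega,
            hi_eq hj (by omega) (by omega), hi_eq hj (by omega) (by omega)]
          rcases Nat.lt_or_ge (j + 1) k with h4 | h4
          · rw [show 4 * j + (15 - 12) + 2 = 4 * (j + 1) + (15 - 14) by omega,
              hi_eq h4 (by omega) (by omega), T_succ]
            exact cast_ne chk_hi_orient_r.ne'
          · obtain rfl : k = j + 1 := by omega
            rw [show 4 * j + (15 - 12) + 2 = 4 * (j + 1) + 1 by omega, hi_last, ← V10_eq]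
            exact cast_ne chk_hi_orient_r0.ne'
        · obtain rfl : s = 3 := by omega
          have h4 : j + 1 < k := by omega
          rw [show 4 * j + (3 + 1) + 1 = 4 * (j + 1) + (15 - 14) by omega,
            show 4 * j + (3 + 1) + 2 = 4 * (j + 1) + (15 - 13) by omega,
            show 4 * j + (3 + 1) = 4 * j + (15 - 11) by omega,
            hi_eq h4 (by omega) (by omega), hi_eq h4 (by omega) (by omega),
            hi_eq hj (by omega) (by omega), ← T_un j (V 11)]
          exact cast_ne chk_hi_orient_l.ne'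
  · obtain ⟨j, rfl⟩ : ∃ j, k = j + 1 := ⟨k - 1, by omega⟩
    rw [show 10 * (j + 1) - 1 = 10 * j + 9 by omega, show 10 * (j + 1) = 10 * j + 10 by omega,
      lo_eq j (by norm_num), lo_eq j (by norm_num),
      show 4 * (j + 1) + 1 - 1 = 4 * j + (15 - 11) by omega,
      hi_eq (Nat.lt_succ_self j) (by norm_num) (by norm_num)]
    exact cast_ne chk_pair_r00.2.2.ne'
  · rw [show hi k 1 = hi k (4 * 0 + (15 - 14)) from rfl, hi_eq hk (by norm_num) (by norm_num),
      lo_zero, show lo 1 = lo (10 * 0 + 1) from rfl, lo_eq 0 (by norm_num)]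
    exact cast_ne (by decide)

/-- the polygon -/
noncomputable def reg (k : ℕ) : Set (ℝ × ℝ) := region (10 * k + (4 * k + 1)) (vk k)

theorem T_le_cast {j : ℕ} {p : ℤ × ℤ} {x : ℤ} (h : p.1 ≤ x) :
    (T j p).1 ≤ (x : ℝ) + j * 2453 := by
  rw [T_fst]
  have : (p.1 : ℝ) ≤ x := by exact_mod_cast h
  linarith

theorem wit_mem {k j w : ℕ} (hk : 1 ≤ k) (hj : j < k) (hw : w < 13) : T j (W w) ∈ reg k := by
  unfold reg vk
  rw [(mono hk).mem_region]
  have m := mono hk
  -- lower chain
  obtain ⟨r, hr, a1, a2, a3⟩ := chk_w_lo w hw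
  have b1 : (T j (V r)).1 ≤ (T j (W w)).1 := T_le a1
  have b2 : (T j (W w)).1 ≤ (T j (V (r + 1))).1 := T_le a2
  rw [← lo_eq j hr.le] at b1
  rw [← lo_eq j (by omega), ← add_assoc] at b2
  have hlow : pl (10 * k) lo (T j (W w)).1 ≤ (T j (W w)).2 := by
    rw [pl_le_iff m.px (i := 10 * j + r) (by omega) b1 b2, add_assoc, lo_eq j hr.le,
      lo_eq j (by omega), orient_T]
    exact_mod_cast a3
  have c1 : (lo 0).1 ≤ (T j (W w)).1 := (chain_le m.px (Nat.zero_le _) (by omega)).trans b1
  have c2 : (T j (W w)).1 ≤ (lo (10 * k)).1 :=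
    b2.trans (chain_le m.px (by omega) le_rfl)
  refine ⟨⟨c1, c2⟩, hlow, ?_⟩
  rcases chk_w_hi w hw with ⟨s, hs1, hs2, d1, d2, d3⟩ | ⟨d1, d2, d3, d4⟩ | ⟨d1, d2, d3, d4⟩
  · have e1 : hi k (4 * j + (15 - s)) = T j (V s) := hi_eq hj (by omega) (by omega)
    have e2 : hi k (4 * j + (15 - s) + 1) = T j (V (s - 1)) := by
      rw [show 4 * j + (15 - s) + 1 = 4 * j + (15 - (s - 1)) by omega]
      exact hi_eq hj (by omega) (by omega)
    rw [le_pl_iff m.qx (i := 4 * j + (15 - s)) (by omega) (by rw [e1]; exact T_le d1)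
      (by rw [e2]; exact T_le d2), e1, e2, orient_T]
    exact_mod_cast d3
  · rcases Nat.eq_zero_or_pos j with h0 | h0
    · subst h0
      have e1 : hi k 0 = T 0 (V 0) := hi_zero k
      have e2 : hi k (0 + 1) = T 0 (V 14) := hi_eq (k := k) (j := 0) (r := 14) hj (by norm_num)
        (by norm_num)
      rw [le_pl_iff m.qx (i := 0) (by omega) (by rw [e1]; exact T_le d1)
        (by rw [e2]; exact T_le d2), e1, e2, orient_T]
      exact_mod_cast d3
    · obtain ⟨i, rfl⟩ : ∃ i, j = i + 1 := ⟨j - 1, by omega⟩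
      have e1 : hi k (4 * i + (15 - 11)) = T (i + 1) (un (V 11)) := by
        rw [T_un]
        exact hi_eq (by omega) (by norm_num) (by norm_num)
      have e2 : hi k (4 * i + (15 - 11) + 1) = T (i + 1) (V 14) := by
        rw [show 4 * i + (15 - 11) + 1 = 4 * (i + 1) + (15 - 14) by omega]
        exact hi_eq hj (by norm_num) (by norm_num)
      rw [le_pl_iff m.qx (i := 4 * i + (15 - 11)) (by omega) (by
        rw [e1]
        refine T_le (le_trans ?_ d1)
        decide) (by rw [e2]; exact T_le d2), e1, e2, orient_T]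
      exact_mod_cast d4
  · rcases Nat.lt_or_ge (j + 1) k with h0 | h0
    · have e1 : hi k (4 * j + (15 - 11)) = T j (V 11) := hi_eq hj (by norm_num) (by norm_num)
      have e2 : hi k (4 * j + (15 - 11) + 1) = T j (sh (V 14)) := by
        rw [show 4 * j + (15 - 11) + 1 = 4 * (j + 1) + (15 - 14) by omega, ← T_succ]
        exact hi_eq h0 (by norm_num) (by norm_num)
      rw [le_pl_iff m.qx (i := 4 * j + (15 - 11)) (by omega) (by rw [e1]; exact T_le d1) (by
        rw [e2]
        exact T_le (d2.trans (by decide))), e1, e2, orient_T]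
      exact_mod_cast d4
    · obtain rfl : k = j + 1 := by omega
      have e1 : hi (j + 1) (4 * j + (15 - 11)) = T j (V 11) := hi_eq hj (by norm_num) (by norm_num)
      have e2 : hi (j + 1) (4 * j + (15 - 11) + 1) = T j (V 10) := by
        rw [show 4 * j + (15 - 11) + 1 = 4 * (j + 1) + 1 by omega, hi_last, V10_eq]
      rw [le_pl_iff m.qx (i := 4 * j + (15 - 11)) (by omega) (by rw [e1]; exact T_le d1) (by
        rw [e2]
        exact T_le (d2.trans (by decide))), e1, e2, orient_T]
      exact_mod_cast d3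

/-- the index of the `r`-th vertex of the `j`-th period -/
def idx (k j r : ℕ) : ℕ := if r ≤ 10 then 10 * j + r else 14 * k + 1 - (4 * j + (15 - r))

theorem vk_idx {k j r : ℕ} (hj : j < k) (hr : r < 15) : vk k (idx k j r) = T j (V r) := by
  unfold vk idx vert
  split_ifs with h1 h2 h2
  · exact lo_eq j h1
  · omega
  · omega
  · rw [show 10 * k + (4 * k + 1) - (14 * k + 1 - (4 * j + (15 - r))) = 4 * j + (15 - r) by omega]
    exact hi_eq hj (by omega) (by omega)

/-- position of a vertex relative to the `j`-th period -/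
theorem decode {k j i : ℕ} (hk : 1 ≤ k) (hj : j < k) (hi' : i < 10 * k + (4 * k + 1)) :
    (∃ r < 15, i = idx k j r) ∨
    (∃ j', j = j' + 1 ∧ (vk k i).1 ≤ (T j' (V 11)).1) ∨
    (j + 1 < k ∧ (vk k i = T j (sh (V 1)) ∨ (T j (sh (V 14))).1 ≤ (vk k i).1)) := by
  have m := mono hk
  rcases Nat.lt_or_ge (10 * k) i with h | h
  · -- upper chain
    obtain ⟨j', s, hs, hi2⟩ : ∃ j' s, s < 4 ∧ 14 * k + 1 - i = 4 * j' + (s + 1) :=
      ⟨(14 * k + 1 - i - 1) / 4, (14 * k + 1 - i - 1) % 4, Nat.mod_lt _ (by norm_num), by omega⟩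
    have hj' : j' < k := by omega
    have hi3 : i = idx k j' (14 - s) := by
      unfold idx
      rw [if_neg (by omega)]
      omega
    have hv : vk k i = T j' (V (14 - s)) := by
      rw [hi3]
      exact vk_idx hj' (by omega)
    have hx := V_x.2 (14 - s) (by omega) (by omega)
    rcases Nat.lt_trichotomy j' j with h1 | h1 | h1
    · right; left
      refine ⟨j - 1, by omega, ?_⟩
      rw [hv, T_fst, T_fst]
      have e1 : ((V (14 - s)).1 : ℝ) ≤ 2372 := by exact_mod_cast hx.2
      have e2 : ((V 11).1 : ℝ) = 2372 := by norm_num [V]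
      have e3 : (j' : ℝ) ≤ (j - 1 : ℕ) := by exact_mod_cast (by omega : j' ≤ j - 1)
      rw [e2]
      linarith
    · left
      subst h1
      exact ⟨14 - s, by omega, hi3⟩
    · right; right
      refine ⟨by omega, Or.inr ?_⟩
      rw [hv, ← T_succ, T_fst, T_fst]
      have e1 : (238 : ℝ) ≤ (V (14 - s)).1 := by exact_mod_cast hx.1
      have e2 : ((V 14).1 : ℝ) = 238 := by norm_num [V]
      have e3 : ((j + 1 : ℕ) : ℝ) ≤ j' := by exact_mod_cast h1
      rw [e2]
      linarith
  · have hv : vk k i = lo i := vert_lo h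
    rcases Nat.lt_or_ge i (10 * j) with h1 | h1
    · right; left
      refine ⟨j - 1, by omega, ?_⟩
      rw [hv]
      refine (chain_le (m := 10 * k) m.px (i := i) (j := 10 * (j - 1) + 9) (by omega)
        (by omega)).trans ?_
      rw [lo_eq (j - 1) (by norm_num)]
      exact T_le (by decide)
    · rcases Nat.lt_or_ge (10 * j + 10) i with h2 | h2
      · right; right
        refine ⟨by omega, ?_⟩
        rcases Nat.lt_or_ge (10 * j + 11) i with h3 | h3
        · right
          rw [hv]
          refine le_trans ?_ (chain_le (m := 10 * k) m.px (i := 10 * (j + 1) + 2) (j := i)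
            (by omega) h)
          rw [lo_eq (j + 1) (by norm_num), T_succ]
          exact T_le (by decide)
        · left
          obtain rfl : i = 10 * (j + 1) + 1 := by omega
          rw [hv, lo_eq (j + 1) (by norm_num), T_succ]
      · left
        refine ⟨i - 10 * j, by omega, ?_⟩
        unfold idx
        rw [if_pos (by omega)]
        omega

end Pool.Agent.H54.Fl
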