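import Pool.Agent.H54.Fl.Vis

/-!
Which vertices can illuminate the witnesses.
-/

namespace Pool.Agent.H54.Fl

open Set

variable {k j : ℕ} (hk : 1 ≤ k) (hj : j < k)

include hk hj

/-- a segment in the region passes above the lower vertices -/
theorem seg_lo {a b : ℝ × ℝ} (hab : a.1 < b.1) (hs : segment ℝ a b ⊆ reg k) {s : ℕ} (h : s ≤ 10)
    (h1 : a.1 ≤ (T j (V s)).1) (h2 : (T j (V s)).1 ≤ b.1) : orient a b (T j (V s)) ≤ 0 := by
  rw [← lo_eq j h] at h1 h2 ⊢
  exact (mono hk).orient_lo hab hs (by omega) h1 h2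

/-- a segment in the region passes below the upper vertices -/
theorem seg_hi {a b : ℝ × ℝ} (hab : a.1 < b.1) (hs : segment ℝ a b ⊆ reg k) {s : ℕ}
    (h : 11 ≤ s) (h' : s ≤ 14)
    (h1 : a.1 ≤ (T j (V s)).1) (h2 : (T j (V s)).1 ≤ b.1) : 0 ≤ orient a b (T j (V s)) := by
  rw [← hi_eq hj h h'] at h1 h2 ⊢
  exact (mono hk).orient_hi hab hs (by omega) h1 h2

theorem not_vis_of_blk {a : ℤ × ℤ} {w s : ℕ} (hs15 : s < 15)
    (hb : blk a (W w) (V s) (decide (10 < s)) = true) :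
    ¬ segment ℝ (T j a) (T j (W w)) ⊆ reg k := by
  intro hs
  unfold blk at hb
  simp only [Bool.or_eq_true, Bool.and_eq_true, decide_eq_true_eq] at hb
  rcases hb with ⟨⟨⟨h1, h2⟩, h3⟩, h4⟩ | ⟨⟨⟨h1, h2⟩, h3⟩, h4⟩
  · rcases Nat.lt_or_ge 10 s with h5 | h5
    · rw [if_pos h5, decide_eq_true_eq] at h4
      have := seg_hi hk hj (T_lt h1) hs h5 (by omega) (T_le h2) (T_le h3)
      rw [orient_T] at this
      have h6 : ((oz a (W w) (V s) : ℤ) : ℝ) < 0 := by exact_mod_cast h4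
      linarith
    · rw [if_neg (by omega), decide_eq_true_eq] at h4
      have := seg_lo hk hj (T_lt h1) hs h5 (T_le h2) (T_le h3)
      rw [orient_T] at this
      have h6 : (0 : ℝ) < ((oz a (W w) (V s) : ℤ) : ℝ) := by exact_mod_cast h4
      linarith
  · rw [segment_symm] at hs
    rcases Nat.lt_or_ge 10 s with h5 | h5
    · rw [if_pos h5, decide_eq_true_eq] at h4
      have := seg_hi hk hj (T_lt h1) hs h5 (by omega) (T_le h2) (T_le h3)
      rw [orient_T] at this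
      have h6 : ((oz (W w) a (V s) : ℤ) : ℝ) < 0 := by exact_mod_cast h4
      linarith
    · rw [if_neg (by omega), decide_eq_true_eq] at h4
      have := seg_lo hk hj (T_lt h1) hs h5 (T_le h2) (T_le h3)
      rw [orient_T] at this
      have h6 : (0 : ℝ) < ((oz (W w) a (V s) : ℤ) : ℝ) := by exact_mod_cast h4
      linarith

omit hk hj in
theorem contra_left {v w q1 q2 : ℝ × ℝ} (hv : v.1 < w.1) (h1 : q1.1 < w.1) (h2 : q2.1 < w.1)
    (a1 : orient v w q1 ≤ 0) (a2 : 0 ≤ orient v w q2) (a3 : orient q1 w q2 < 0) : False := by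
  have e : -(v.1 - w.1) * orient q1 w q2 + (q1.1 - w.1) * orient v w q2 -
      (q2.1 - w.1) * orient v w q1 = 0 := by
    unfold orient
    ring
  have b1 : -(v.1 - w.1) * orient q1 w q2 < 0 := mul_neg_of_pos_of_neg (by linarith) a3
  have b2 : (q1.1 - w.1) * orient v w q2 ≤ 0 :=
    mul_nonpos_of_nonpos_of_nonneg (by linarith) a2
  have b3 : 0 ≤ (q2.1 - w.1) * orient v w q1 :=
    mul_nonneg_of_nonpos_of_nonpos (by linarith) a1
  linarith

omit hk hj in
theorem contra_right {v w q1 q2 : ℝ × ℝ} (hv : w.1 < v.1) (h1 : w.1 < q1.1) (h2 : w.1 < q2.1)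
    (a1 : orient w v q1 ≤ 0) (a2 : 0 ≤ orient w v q2) (a3 : orient w q1 q2 < 0) : False := by
  have e : (v.1 - w.1) * orient w q1 q2 - (q1.1 - w.1) * orient w v q2 +
      (q2.1 - w.1) * orient w v q1 = 0 := by
    unfold orient
    ring
  have b1 : (v.1 - w.1) * orient w q1 q2 < 0 := mul_neg_of_pos_of_neg (by linarith) a3
  have b2 : 0 ≤ (q1.1 - w.1) * orient w v q2 := mul_nonneg (by linarith) a2
  have b3 : (q2.1 - w.1) * orient w v q1 ≤ 0 :=
    mul_nonpos_of_nonneg_of_nonpos (by linarith) a1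
  linarith

theorem not_vis_left {v : ℝ × ℝ} {w j' : ℕ} (hw : w < 13) (hjj : j = j' + 1)
    (hv : v.1 ≤ (T j' (V 11)).1) : ¬ segment ℝ v (T j (W w)) ⊆ reg k := by
  intro hs
  obtain ⟨i, hi', h1, s, hs1, hs2, h2, h3⟩ := chk_left w hw
  have hVB : ∀ s < 15, 10 ≤ s → (un (V 11)).1 ≤ (Bl s).1 := by decide
  have hVL : ∀ i < 11, (un (V 11)).1 < (V i).1 := by decide
  rw [← T_un j' (V 11), ← hjj] at hv
  have c1 : v.1 < (T j (V i)).1 := hv.trans_lt (T_lt (hVL i hi'))
  have c2 : v.1 ≤ (T j (Bl s)).1 := hv.trans (T_le (hVB s hs1 hs2))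
  have c3 := T_lt (j := j) h1
  have c4 := T_lt (j := j) h2
  have hvw : v.1 < (T j (W w)).1 := c1.trans c3
  have a1 : orient v (T j (W w)) (T j (V i)) ≤ 0 :=
    seg_lo hk hj hvw hs (by omega) c1.le c3.le
  have a2 : 0 ≤ orient v (T j (W w)) (T j (Bl s)) := by
    by_cases h10 : s = 10
    · have e : T j (Bl s) = hi k (4 * j' + (15 - 11)) := by
        rw [hi_eq (by omega) (by norm_num) (by norm_num), h10, hjj, ← T_un j' (V 11)]
        rfl
      rw [e] at c2 c4 ⊢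
      exact (mono hk).orient_hi hvw hs (by omega) c2 c4.le
    · have e : Bl s = V s := if_neg h10
      rw [e] at c2 c4 ⊢
      exact seg_hi hk hj hvw hs (by omega) (by omega) c2 c4.le
  refine contra_left hvw c3 c4 a1 a2 ?_
  rw [orient_T]
  exact_mod_cast h3

theorem not_vis_right {v : ℝ × ℝ} {w : ℕ} (hw : w < 13) (hjj : j + 1 < k)
    (hv : (T j (sh (V 14))).1 ≤ v.1) : ¬ segment ℝ v (T j (W w)) ⊆ reg k := by
  intro hs
  rw [segment_symm] at hs
  obtain ⟨i, hi', h1, s, hs1, hs2, h2, h3⟩ := chk_right w hw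
  have hVB : ∀ s < 15, 10 ≤ s → (Br s).1 ≤ (sh (V 14)).1 := by decide
  have hVL : ∀ i < 11, (V i).1 < (sh (V 14)).1 := by decide
  have c1 : (T j (V i)).1 < v.1 := (T_lt (hVL i hi')).trans_le hv
  have c2 : (T j (Br s)).1 ≤ v.1 := (T_le (hVB s hs1 hs2)).trans hv
  have c3 := T_lt (j := j) h1
  have c4 := T_lt (j := j) h2
  have hvw : (T j (W w)).1 < v.1 := c3.trans c1
  have a1 : orient (T j (W w)) v (T j (V i)) ≤ 0 :=
    seg_lo hk hj hvw hs (by omega) c3.le c1.le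
  have a2 : 0 ≤ orient (T j (W w)) v (T j (Br s)) := by
    by_cases h10 : s = 10
    · have e : T j (Br s) = hi k (4 * (j + 1) + (15 - 14)) := by
        rw [hi_eq hjj (by norm_num) (by norm_num), h10, T_succ]
        rfl
      rw [e] at c2 c4 ⊢
      exact (mono hk).orient_hi hvw hs (by omega) c4.le c2
    · have e : Br s = V s := if_neg h10
      rw [e] at c2 c4 ⊢
      exact seg_hi hk hj hvw hs (by omega) (by omega) c4.le c2
  refine contra_right hvw c3 c4 a1 a2 ?_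
  rw [orient_T]
  exact_mod_cast h3

/-- only the three vertices `allow w` of the `j`-th period see the `w`-th witness -/
theorem vis_allow {i w : ℕ} (hi' : i < 10 * k + (4 * k + 1)) (hw : w < 13)
    (hs : segment ℝ (vk k i) (T j (W w)) ⊆ reg k) : ∃ r < 15, r ∈ allow w ∧ i = idx k j r := by
  rcases decode hk hj hi' with ⟨r, hr, h⟩ | ⟨j', h1, h2⟩ | ⟨h1, h2 | h2⟩
  · refine ⟨r, hr, ?_, h⟩
    by_contra hne
    obtain ⟨s, hs1, hs2⟩ := (chk_local w hw r hr).resolve_left hne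
    rw [h, vk_idx hj hr] at hs
    exact not_vis_of_blk hk hj hs1 hs2 hs
  · exact absurd hs (not_vis_left hk hj hw h1 h2)
  · obtain ⟨s, hs1, hs2, hs3⟩ := chk_tb1 w hw
    rw [h2] at hs
    exact absurd hs (not_vis_of_blk hk hj hs1 hs3)
  · exact absurd hs (not_vis_right hk hj hw h1 h2)

end Pool.Agent.H54.Fl
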